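import Pool.Agent.Lib.MP_452a87_nt.SpecE

/-!
# MP_452a87_nt, E/ECb: the cube theorem (helper6)
-/

set_option autoImplicit false

namespace Pool.Agent.SMQ

namespace ECbM

private lemma alg_mono {K K' : IntermediateField ℚ ℂ} (h : K ≤ K') {x : ℂ} (hx : IsAlgebraic K x) :
    IsAlgebraic K' x := by
  let _ : Algebra K K' := (IntermediateField.inclusion h).toRingHom.toAlgebra
  have : IsScalarTower K K' ℂ := IsScalarTower.of_algebraMap_eq fun _ => rfl
  exact hx.tower_top K'

private lemma alg_trans {K : IntermediateField ℚ ℂ} {S : Set ℂ} (hS : ∀ s ∈ S, IsAlgebraic K s)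
    {x : ℂ} (hx : IsAlgebraic (IntermediateField.adjoin ℚ S) x) : IsAlgebraic K x := by
  have h1 : IntermediateField.adjoin ℚ S ≤ (algebraicClosure K ℂ).restrictScalars ℚ := by
    rw [IntermediateField.adjoin_le_iff]
    intro s hs
    exact mem_algebraicClosure_iff.mpr (hS s hs)
  have h2 : IsAlgebraic ((algebraicClosure K ℂ).restrictScalars ℚ) x := alg_mono h1 hx
  have h3 : IsAlgebraic (algebraicClosure K ℂ) x := h2
  exact h3.restrictScalars K

private lemma alg_pow {K : IntermediateField ℚ ℂ} {x y : ℂ} {s s' : ℕ} (hs : 0 < s)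
    (h : x ^ s = y ^ s') (hy : IsAlgebraic K y) : IsAlgebraic K x := by
  have h1 : IsAlgebraic K (x ^ s) := by
    rw [h]
    exact hy.pow s'
  exact IsAlgebraic.of_pow hs h1

private lemma vn_pow {j : ℕ} (lam : Finset (Fin j) → ℂ) (a a' : Fin j → ℕ)
    (h : ∀ i, ∃ s s' : ℕ, 0 < s ∧ 0 < s' ∧ a i * s ^ 2 = a' i * s' ^ 2) (A : Finset (Fin j)) :
    ∃ S S' : ℕ, 0 < S ∧ 0 < S' ∧ vn lam a A ^ S = vn lam a' A ^ S' := by
  choose s s' hs hs' hss using h
  refine ⟨∏ i ∈ A, s i, ∏ i ∈ A, s' i, Finset.prod_pos fun i _ => hs i,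
    Finset.prod_pos fun i _ => hs' i, ?_⟩
  have h1 : (∏ i ∈ A, a i) * (∏ i ∈ A, s i) ^ 2 = (∏ i ∈ A, a' i) * (∏ i ∈ A, s' i) ^ 2 := by
    rw [← Finset.prod_pow, ← Finset.prod_pow, ← Finset.prod_mul_distrib,
      ← Finset.prod_mul_distrib]
    exact Finset.prod_congr rfl fun i _ => hss i
  have h2 : Real.sqrt ((∏ i ∈ A, a i : ℕ) : ℝ) * ((∏ i ∈ A, s i : ℕ) : ℝ) =
      Real.sqrt ((∏ i ∈ A, a' i : ℕ) : ℝ) * ((∏ i ∈ A, s' i : ℕ) : ℝ) := by
    have h3 : (((∏ i ∈ A, a i : ℕ) : ℝ)) * ((∏ i ∈ A, s i : ℕ) : ℝ) ^ 2 =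
        ((∏ i ∈ A, a' i : ℕ) : ℝ) * ((∏ i ∈ A, s' i : ℕ) : ℝ) ^ 2 := by
      exact_mod_cast h1
    have h4 := congrArg Real.sqrt h3
    rwa [Real.sqrt_mul (Nat.cast_nonneg _), Real.sqrt_mul (Nat.cast_nonneg _),
      Real.sqrt_sq (Nat.cast_nonneg _), Real.sqrt_sq (Nat.cast_nonneg _)] at h4
  unfold vn
  rw [← Complex.exp_nat_mul, ← Complex.exp_nat_mul]
  congr 1
  have h5 : ((Real.sqrt ((∏ i ∈ A, a i : ℕ) : ℝ) : ℝ) : ℂ) * ((∏ i ∈ A, s i : ℕ) : ℂ) =
      ((Real.sqrt ((∏ i ∈ A, a' i : ℕ) : ℝ) : ℝ) : ℂ) * ((∏ i ∈ A, s' i : ℕ) : ℂ) := by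
    have := congrArg (fun x : ℝ => (x : ℂ)) h2
    simpa only [Complex.ofReal_mul, Complex.ofReal_natCast] using this
  linear_combination lam A * h5

private lemma mu_eq {κ : Type} (a : κ → ℕ) (U : Finset κ) :
    mu a U = Real.sqrt ((∏ l ∈ U, a l : ℕ) : ℝ) := by
  classical
  unfold mu
  induction U using Finset.induction_on with
  | empty => simp
  | insert i s hi ih =>
    rw [Finset.prod_insert hi, Finset.prod_insert hi, ih, Nat.cast_mul,
      Real.sqrt_mul (Nat.cast_nonneg _)]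

end ECbM

open ECbM in
theorem pECb (hLTL : S_LTL) (hTrE : S_TrE) (hTrU : S_TrU) : S_ECb := by
  classical
  intro j c b lam C aW hc hb hlam haW
  by_contra hcon
  push Not at hcon
  obtain ⟨hCne, hCn, -⟩ := hcon (fun _ => ∅)
  obtain ⟨A0, hA0, hmax⟩ := Finset.exists_max_image C Finset.card hCne
  have hq : 1 ≤ A0.card := Finset.card_pos.mpr (hCn A0 hA0)
  set q := A0.card with hqdef
  set m := q * (j + 4) with hm
  have hcard : Fintype.card ({i // i ∈ A0} × Fin (j + 4)) = m := by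
    rw [Fintype.card_prod, Fintype.card_coe, Fintype.card_fin]
  let e : Fin m ≃ {i // i ∈ A0} × Fin (j + 4) := (Fintype.equivFinOfCardEq hcard).symm
  let b' : Fin m → ℕ := fun p => b (e p).1 (e p).2
  have hb' : Ind b' := by
    intro X hX hsq
    let f : Fin m ↪ Fin j × Fin (j + 4) :=
      ⟨fun p => (((e p).1 : Fin j), (e p).2), by
        intro p p' h
        apply e.injective
        rw [Prod.mk.injEq] at h
        exact Prod.ext (Subtype.ext h.1) h.2⟩
    apply hb (X.map f) (hX.map)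
    rw [Finset.prod_map]
    exact hsq
  let WX : Finset (Fin m) → Fin j → Finset (Fin (j + 4)) := fun X i =>
    Finset.univ.filter (fun l => ∃ h : i ∈ A0, e.symm (⟨i, h⟩, l) ∈ X)
  let y : Finset (Fin j) → Finset (Fin m) → ℂ := fun A X =>
    vn lam (fun i => c i * ∏ l ∈ WX X i, b i l) A
  -- the numbers y at A0
  have hprod : ∀ X : Finset (Fin m), ∏ i ∈ A0, ∏ l ∈ WX X i, b i l = ∏ p ∈ X, b' p := by
    intro X
    have h1 : ∏ p ∈ X, b' p = ∏ p : Fin m, if p ∈ X then b' p else 1 := by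
      rw [Finset.prod_ite_mem, Finset.univ_inter]
    have h2 : (∏ p : Fin m, if p ∈ X then b' p else 1) =
        ∏ r : {i // i ∈ A0} × Fin (j + 4), if e.symm r ∈ X then b r.1 r.2 else 1 := by
      rw [← Equiv.prod_comp e]
      refine Finset.prod_congr rfl fun p _ => ?_
      rw [Equiv.symm_apply_apply]
    rw [h1, h2, Fintype.prod_prod_type, ← Finset.prod_coe_sort A0]
    refine Finset.prod_congr rfl fun i _ => ?_
    rw [Finset.prod_filter]
    refine Finset.prod_congr rfl fun l _ => ?_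
    have h3 : (∃ h : (i : Fin j) ∈ A0, e.symm (⟨(i : Fin j), h⟩, l) ∈ X) ↔
        e.symm (i, l) ∈ X := by
      constructor
      · rintro ⟨h, h'⟩
        exact h'
      · intro h
        exact ⟨i.2, h⟩
    by_cases h4 : e.symm (i, l) ∈ X
    · rw [if_pos h4, if_pos (h3.mpr h4)]
    · rw [if_neg h4, if_neg (fun h => h4 (h3.mp h))]
  set L' : ℂ := lam A0 * ((Real.sqrt ((∏ i ∈ A0, c i : ℕ) : ℝ) : ℝ) : ℂ) with hL'
  have hL'0 : L' ≠ 0 := by
    refine mul_ne_zero (hlam A0) ?_
    rw [Complex.ofReal_ne_zero]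
    apply ne_of_gt
    apply Real.sqrt_pos.mpr
    exact_mod_cast Finset.prod_pos fun i _ => hc i
  have hyth : ∀ X : Finset (Fin m), y A0 X = th b' L' X := by
    intro X
    change vn lam (fun i => c i * ∏ l ∈ WX X i, b i l) A0 = th b' L' X
    unfold vn th
    congr 1
    rw [mu_eq, Finset.prod_mul_distrib, hprod, Nat.cast_mul,
      Real.sqrt_mul (Nat.cast_nonneg _), Complex.ofReal_mul, hL']
    ring
  -- restriction of X
  have hyr : ∀ (A : Finset (Fin j)) (X : Finset (Fin m)),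
      y A X = y A (X.filter (fun p => ((e p).1 : Fin j) ∈ A)) := by
    intro A X
    have h1 : ∀ i ∈ A, WX X i = WX (X.filter (fun p => ((e p).1 : Fin j) ∈ A)) i := by
      intro i hi
      ext l
      simp only [WX, Finset.mem_filter, Finset.mem_univ, true_and]
      constructor
      · rintro ⟨h, h'⟩
        refine ⟨h, h', ?_⟩
        rw [Equiv.apply_symm_apply]
        exact hi
      · rintro ⟨h, h', _⟩
        exact ⟨h, h'⟩
    have h2 : ∏ i ∈ A, (c i * ∏ l ∈ WX X i, b i l) =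
        ∏ i ∈ A, (c i * ∏ l ∈ WX (X.filter (fun p => ((e p).1 : Fin j) ∈ A)) i, b i l) :=
      Finset.prod_congr rfl fun i hi => by rw [h1 i hi]
    change vn lam _ A = vn lam _ A
    unfold vn
    rw [h2]
  -- the index set
  let K : Finset (Finset (Fin j) × Finset (Fin m)) := (C.erase A0).biUnion (fun A =>
    ((Finset.univ.filter (fun p : Fin m => ((e p).1 : Fin j) ∈ A)).powerset).image
      (fun X => (A, X)))
  have hKcard : K.card ≤ 2 ^ j * 2 ^ ((q - 1) * (j + 4)) := by
    have h1 : K.card ≤ (C.erase A0).card * 2 ^ ((q - 1) * (j + 4)) := by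
      refine Finset.card_biUnion_le_card_mul _ _ _ fun A hA => ?_
      refine Finset.card_image_le.trans ?_
      rw [Finset.card_powerset]
      apply Nat.pow_le_pow_right (by norm_num)
      have h2 : (Finset.univ.filter (fun p : Fin m => ((e p).1 : Fin j) ∈ A)).card ≤
          ((A ∩ A0) ×ˢ (Finset.univ : Finset (Fin (j + 4)))).card := by
        refine Finset.card_le_card_of_injOn (fun p => (((e p).1 : Fin j), (e p).2)) ?_ ?_
        · intro p hp
          rw [Finset.mem_coe, Finset.mem_filter] at hp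
          rw [Finset.mem_coe, Finset.mem_product, Finset.mem_inter]
          exact ⟨⟨hp.2, (e p).1.2⟩, Finset.mem_univ _⟩
        · intro p _ p' _ h
          apply e.injective
          rw [Prod.mk.injEq] at h
          exact Prod.ext (Subtype.ext h.1) h.2
      refine h2.trans ?_
      rw [Finset.card_product, Finset.card_univ, Fintype.card_fin]
      apply Nat.mul_le_mul_right
      have hA' := Finset.mem_erase.mp hA
      have h3 : A ∩ A0 ⊂ A0 := by
        refine ⟨Finset.inter_subset_right, ?_⟩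
        intro h4
        have h5 : A0 ⊆ A := fun i hi => (Finset.mem_inter.mp (h4 hi)).1
        exact hA'.1 (Finset.eq_of_subset_of_card_le h5 (hmax A hA'.2)).symm
      have h4 := Finset.card_lt_card h3
      omega
    refine h1.trans ?_
    apply Nat.mul_le_mul_right
    refine (Finset.card_le_univ _).trans ?_
    rw [Fintype.card_finset, Fintype.card_fin]
  -- algebraicity
  have halg : ∀ X : Finset (Fin m), IsAlgebraic (IntermediateField.adjoin ℚ
      (Set.range (fun r : K => y r.1.1 r.1.2))) (th b' L' X) := by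
    intro X
    set F := IntermediateField.adjoin ℚ (Set.range (fun r : K => y r.1.1 r.1.2)) with hF
    obtain ⟨-, -, hcrc⟩ := hcon (WX X)
    have h1 := hcrc A0 hA0
    have h2 : IsAlgebraic F (vn lam (aW (WX X)) A0) := by
      refine alg_trans ?_ h1
      rintro _ ⟨A, hA, rfl⟩
      obtain ⟨S, S', hS, hS', hSS⟩ := vn_pow lam (aW (WX X))
        (fun i => c i * ∏ l ∈ WX X i, b i l) (haW (WX X)) A
      refine alg_pow hS hSS ?_
      have h3 : y A X ∈ F := by
        rw [hyr]
        apply IntermediateField.subset_adjoin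
        refine ⟨⟨(A, X.filter (fun p => ((e p).1 : Fin j) ∈ A)), ?_⟩, rfl⟩
        rw [Finset.mem_biUnion]
        refine ⟨A, hA, ?_⟩
        rw [Finset.mem_image]
        refine ⟨_, ?_, rfl⟩
        rw [Finset.mem_powerset]
        exact Finset.filter_subset_filter _ (Finset.subset_univ _)
      exact isAlgebraic_algebraMap (⟨y A X, h3⟩ : F)
    obtain ⟨S, S', hS, hS', hSS⟩ := vn_pow lam (aW (WX X))
      (fun i => c i * ∏ l ∈ WX X i, b i l) (haW (WX X)) A0
    rw [← hyth]
    exact alg_pow hS' hSS.symm h2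
  obtain ⟨t, ht⟩ := hTrE (Finset (Fin m)) ℂ (th b' L')
  have h7 := hTrU (Finset (Fin m)) K ℂ (th b' L') (fun r : K => y r.1.1 r.1.2) t ht halg
  rw [Nat.card_eq_fintype_card, Fintype.card_coe] at h7
  have h8 := hLTL m t b' L' hb' hL'0 ht
  have h9 : (2 : ℕ) ^ m = 16 * (2 ^ j * 2 ^ ((q - 1) * (j + 4))) := by
    have h10 : m = (q - 1) * (j + 4) + (j + 4) := by
      rw [hm]
      obtain ⟨q', hq'⟩ : ∃ q', q = q' + 1 := ⟨q - 1, by omega⟩
      rw [hq', Nat.add_sub_cancel]
      ring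
    rw [h10, pow_add, pow_add 2 j 4]
    ring
  have h11 : 1 ≤ 2 ^ j * 2 ^ ((q - 1) * (j + 4)) := Nat.one_le_iff_ne_zero.mpr (by positivity)
  omega

end Pool.Agent.SMQ
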