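import Pool.Agent.Lib.MP_452a87_nt.SpecE
import Pool.Agent.Lib.MP_452a87_nt.D.Sdd

/-!
# MP_452a87_nt, E/EFn: natural density for fields (helper6)
-/

set_option autoImplicit false

namespace Pool.Agent.SMQ

namespace EFnM

/-- The sign. -/
private noncomputable def sg (b : Bool) : ℂ := if b then Complex.I else 1

private lemma sg_ne (b : Bool) : sg b ≠ 0 := by
  unfold sg
  split_ifs
  · exact Complex.I_ne_zero
  · exact one_ne_zero

private lemma rt_sq (b : Bool) (n : ℕ) : rt b n ^ 2 = (((if b then -(n : ℤ) else n) : ℤ) : ℂ) := by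
  unfold rt
  rw [mul_pow, ← Complex.ofReal_pow, Real.sq_sqrt (Nat.cast_nonneg _), Complex.ofReal_natCast]
  cases b
  · simp
  · simp [Complex.I_sq]

private lemma sd_single {j : ℕ} (A : Finset (Fin j)) :
    sd A (fun i : Fin j => ({i} : Finset (Fin j))) = A := by
  ext l
  rw [SddAux.mem_sd]
  have h : A.filter (fun i => l ∈ ({i} : Finset (Fin j))) = if l ∈ A then {l} else ∅ := by
    ext i
    rw [Finset.mem_filter, Finset.mem_singleton]
    split_ifs with h
    · rw [Finset.mem_singleton]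
      constructor
      · rintro ⟨_, h2⟩
        exact h2.symm
      · rintro rfl
        exact ⟨h, rfl⟩
    · constructor
      · rintro ⟨h1, rfl⟩
        exact absurd h1 h
      · intro h2
        exact absurd h2 (Finset.notMem_empty _)
  rw [h]
  split_ifs with h2
  · simp [h2]
  · simp [h2]

private lemma rho_rt {j : ℕ} (s : Fin j → Bool) (a : Fin j → ℕ) (A : Finset (Fin j)) :
    rho (fun i => rt (s i) (a i)) A = (∏ i ∈ A, sg (s i)) *
      ((Real.sqrt ((∏ i ∈ A, a i : ℕ) : ℝ) : ℝ) : ℂ) := by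
  unfold rho
  have h1 : Real.sqrt ((∏ i ∈ A, a i : ℕ) : ℝ) = ∏ i ∈ A, Real.sqrt (a i) := by
    induction A using Finset.induction_on with
    | empty => simp
    | insert i s hi ih =>
      rw [Finset.prod_insert hi, Finset.prod_insert hi, ← ih, Nat.cast_mul,
        Real.sqrt_mul (Nat.cast_nonneg _)]
  rw [h1, Complex.ofReal_prod, ← Finset.prod_mul_distrib]
  rfl

private lemma good {j : ℕ} (hFB : S_FB) (hFG : S_FG) (a : Fin j → ℕ) (L : ℂ)
    (hL : IsAlgebraic ℚ (Complex.exp L))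
    (hsq : ¬ ∃ A : Finset (Fin j), A.Nonempty ∧ IsSquare (∏ i ∈ A, a i)) (s : Fin j → Bool)
    (hb : ¬ BadN (fun A => L * ∏ i ∈ A, sg (s i)) a) :
    Module.finrank ℚ (Ks s a) = 2 ^ j ∧ ¬ BadK (2 ^ j) L (Ks s a) := by
  set r : Fin j → ℂ := fun i => rt (s i) (a i) with hr
  let a0 : Fin j → ℤ := fun i => if s i then -(a i : ℤ) else a i
  have hR : Rts r a0 := by
    refine ⟨fun i => rt_sq (s i) (a i), fun X hX hS => hsq ⟨X, hX, ?_⟩⟩
    obtain ⟨t, ht⟩ := hS
    refine ⟨t.natAbs, ?_⟩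
    have h1 := congrArg Int.natAbs ht
    rw [Int.natAbs_mul] at h1
    rw [← h1]
    have h2 : ∀ Y : Finset (Fin j), (∏ i ∈ Y, a0 i).natAbs = ∏ i ∈ Y, a i := by
      intro Y
      induction Y using Finset.induction_on with
      | empty => simp
      | insert i Y hi ih =>
        rw [Finset.prod_insert hi, Finset.prod_insert hi, Int.natAbs_mul, ih]
        congr 1
        simp only [a0]
        split_ifs <;> simp
    exact (h2 X).symm
  let x : Fin j → Finset (Fin j) := fun i => {i}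
  have hF : Fre x := by
    intro A hA
    rw [sd_single]
    exact hA.ne_empty
  have hK : KX r x = Ks s a := by
    unfold KX Ks
    congr 1
    ext z
    constructor
    · rintro ⟨i, rfl⟩
      exact ⟨i, by simp [x, rho, hr]⟩
    · rintro ⟨i, rfl⟩
      exact ⟨i, by simp [x, rho, hr]⟩
  have hT : ¬ BadT r L x := by
    intro h
    apply hb
    unfold BadT at h
    unfold BadN
    have h1 : (fun A : {A : Finset (Fin j) // A.Nonempty} => ths r L (sd A.1 x)) =
        fun A : {A : Finset (Fin j) // A.Nonempty} =>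
          vn (fun A => L * ∏ i ∈ A, sg (s i)) a A.1 := by
      funext A
      rw [sd_single]
      unfold ths vn
      congr 1
      rw [hr, rho_rt]
      ring
    rwa [h1] at h
  rw [← hK]
  refine ⟨(hFB j j r a0 x hR).2.1.mpr hF, ?_⟩
  rintro ⟨β, hβ, h⟩
  exact h (hFG j j r a0 L x hR hL hF hT β hβ)

end EFnM

open EFnM in
theorem pEFn (hENt : S_ENt) (hESq : S_ESq) (hFB : S_FB) (hFG : S_FG) : S_EFn := by
  classical
  intro j ε hε
  have hε' : 0 < ε / (2 ^ j + 1) := by positivity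
  obtain ⟨X1, hX1⟩ := hENt j _ hε'
  obtain ⟨X2, hX2⟩ := hESq j _ hε'
  refine ⟨max X1 X2, fun X hX L hL hα => ?_⟩
  have h1 := hX2 X ((le_max_right _ _).trans hX)
  have h2 : ∀ s : Fin j → Bool, (Set.ncard {a : Fin j → ℕ | (∀ i, 1 ≤ a i ∧ a i ≤ X) ∧
      BadN (fun A => L * ∏ i ∈ A, sg (s i)) a} : ℝ) ≤ ε / (2 ^ j + 1) * (X : ℝ) ^ j := fun s =>
    hX1 X ((le_max_left _ _).trans hX) _
      (fun A => mul_ne_zero hL (Finset.prod_ne_zero_iff.mpr fun i _ => sg_ne _))
  have hbox : ({a : Fin j → ℕ | ∀ i, 1 ≤ a i ∧ a i ≤ X}).Finite := by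
    refine (Set.finite_Icc (fun _ => 1 : Fin j → ℕ) (fun _ => X)).subset ?_
    intro a ha
    exact ⟨fun i => (ha i).1, fun i => (ha i).2⟩
  have hsub : {a : Fin j → ℕ | (∀ i, 1 ≤ a i ∧ a i ≤ X) ∧
      ¬ ∀ s : Fin j → Bool, Module.finrank ℚ (Ks s a) = 2 ^ j ∧ ¬ BadK (2 ^ j) L (Ks s a)} ⊆
      {a : Fin j → ℕ | (∀ i, 1 ≤ a i ∧ a i ≤ X) ∧
        ∃ A : Finset (Fin j), A.Nonempty ∧ IsSquare (∏ i ∈ A, a i)} ∪
      ⋃ s : Fin j → Bool, {a : Fin j → ℕ | (∀ i, 1 ≤ a i ∧ a i ≤ X) ∧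
        BadN (fun A => L * ∏ i ∈ A, sg (s i)) a} := by
    rintro a ⟨ha1, ha2⟩
    by_contra hcon
    rw [Set.mem_union, Set.mem_iUnion, not_or, not_exists] at hcon
    apply ha2
    intro s
    exact good hFB hFG a L hα (fun h => hcon.1 ⟨ha1, h⟩) s (fun h => hcon.2 s ⟨ha1, h⟩)
  have hfin : ({a : Fin j → ℕ | (∀ i, 1 ≤ a i ∧ a i ≤ X) ∧
        ∃ A : Finset (Fin j), A.Nonempty ∧ IsSquare (∏ i ∈ A, a i)} ∪
      ⋃ s : Fin j → Bool, {a : Fin j → ℕ | (∀ i, 1 ≤ a i ∧ a i ≤ X) ∧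
        BadN (fun A => L * ∏ i ∈ A, sg (s i)) a}).Finite := by
    refine hbox.subset ?_
    rintro a (ha | ha)
    · exact ha.1
    · obtain ⟨s, hs⟩ := Set.mem_iUnion.mp ha
      exact hs.1
  have h3 := (Set.ncard_le_ncard hsub hfin).trans ((Set.ncard_union_le _ _).trans
    (Nat.add_le_add_left (Set.ncard_iUnion_le_of_fintype _) _))
  have h4 := Nat.cast_le (α := ℝ).mpr h3
  rw [Nat.cast_add, Nat.cast_sum] at h4
  refine h4.trans ?_
  calc _ ≤ ε / (2 ^ j + 1) * (X : ℝ) ^ j +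
        ∑ _s : Fin j → Bool, ε / (2 ^ j + 1) * (X : ℝ) ^ j :=
          add_le_add h1 (Finset.sum_le_sum fun s _ => h2 s)
    _ = ε * (X : ℝ) ^ j := by
      rw [Finset.sum_const, Finset.card_univ, Fintype.card_fun, Fintype.card_bool,
        Fintype.card_fin, nsmul_eq_mul]
      push_cast
      field_simp
      ring

end Pool.Agent.SMQ
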