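import Pool.Agent.Lib.MP_452a87_nt.SpecE
import Pool.Agent.Lib.MP_452a87_nt.D.FinD

/-!
# MP_452a87_nt, E/EFp: power saving for subfields (helper6)
-/

set_option autoImplicit false

namespace Pool.Agent.SMQ

namespace EFpM

private lemma beta_le (j m : ℕ) : ((2 : ℝ) ^ (j * (j + 4)) / 2 ^ m) ^ (1 / (2 : ℝ) ^ (j * (j + 4))) ≤
    2 * (2 : ℝ) ^ (-((m : ℝ) / 2 ^ (j * (j + 4)))) := by
  set K : ℕ := j * (j + 4) with hK
  have h1 : (K : ℝ) * (1 / (2 : ℝ) ^ K) ≤ 1 := by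
    rw [mul_one_div, div_le_one (by positivity)]
    exact_mod_cast (Nat.lt_two_pow_self (n := K)).le
  rw [Real.div_rpow (by positivity) (by positivity), ← Real.rpow_natCast 2 K,
    ← Real.rpow_natCast 2 m, ← Real.rpow_mul (by norm_num), ← Real.rpow_mul (by norm_num),
    Real.rpow_natCast 2 K, div_eq_mul_inv, ← Real.rpow_neg (by norm_num), mul_one_div (m : ℝ)]
  refine mul_le_mul_of_nonneg_right ?_ (by positivity)
  calc (2 : ℝ) ^ ((K : ℝ) * (1 / (2 : ℝ) ^ K)) ≤ (2 : ℝ) ^ (1 : ℝ) :=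
        Real.rpow_le_rpow_of_exponent_le (by norm_num) h1
    _ = 2 := Real.rpow_one 2

private lemma small_le (j m : ℕ) (h : m ≤ j) :
    1 ≤ (2 : ℝ) ^ (2 ^ j + 3) * (2 : ℝ) ^ (-((m : ℝ) / 2 ^ (j * (j + 4)))) := by
  have h1 : (m : ℝ) / 2 ^ (j * (j + 4)) ≤ 1 := by
    rw [div_le_one (by positivity)]
    have h2 : m ≤ 2 ^ (j * (j + 4)) := by
      calc m ≤ j := h
        _ ≤ j * (j + 4) := Nat.le_mul_of_pos_right j (by omega)
        _ ≤ 2 ^ (j * (j + 4)) := (Nat.lt_two_pow_self).le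
    exact_mod_cast h2
  have h2 : (2 : ℝ)⁻¹ ≤ (2 : ℝ) ^ (-((m : ℝ) / 2 ^ (j * (j + 4)))) := by
    calc (2 : ℝ)⁻¹ = (2 : ℝ) ^ (-(1 : ℝ)) := by
          rw [Real.rpow_neg (by norm_num), Real.rpow_one]
      _ ≤ _ := Real.rpow_le_rpow_of_exponent_le (by norm_num) (by linarith)
  have h3 : (2 : ℝ) ≤ (2 : ℝ) ^ (2 ^ j + 3) := by
    calc (2 : ℝ) = 2 ^ 1 := by norm_num
      _ ≤ _ := pow_le_pow_right₀ (by norm_num) (le_trans (by norm_num) (Nat.le_add_left 3 _))
  calc (1 : ℝ) = 2 * (2 : ℝ)⁻¹ := by norm_num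
    _ ≤ _ := by gcongr

end EFpM

open FinDAux EFpM

open Classical in
theorem pEFp (hEPs : S_EPs) (hFR : S_FR) (hFD : S_FD) (hFE : S_FE) (hFF : S_FF)
    (hFG : S_FG) (hFB : S_FB) : S_EFp := by
  intro j m S hS hdeg L hL hα
  obtain ⟨N, hN1, hN⟩ := hFE j
  obtain ⟨r, a, hra, hF⟩ := hFR m S hS hdeg
  rw [hF]
  have hfr : ∀ x : Fin j → Finset (Fin m), Module.finrank ℚ (KX r x) = 2 ^ j ↔ Fre x :=
    fun x => (hFB j m r a x hra).2.1
  have hfin : ({K : IntermediateField ℚ ℂ | K ≤ IntermediateField.adjoin ℚ (Set.range r) ∧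
      Module.finrank ℚ K = 2 ^ j}).Finite := by
    refine (Set.toFinite (Set.range fun x : Fin j → Finset (Fin m) => KX r x)).subset ?_
    rintro K ⟨hK1, hK2⟩
    obtain ⟨x, _, hx⟩ := hFD m j r a hra K hK1 hK2
    exact ⟨x, hx.symm⟩
  refine ⟨hfin, ?_⟩
  have hfin' : ({K : IntermediateField ℚ ℂ | K ≤ IntermediateField.adjoin ℚ (Set.range r) ∧
      Module.finrank ℚ K = 2 ^ j ∧ BadK (2 ^ j) L K}).Finite :=
    hfin.subset fun K hK => ⟨hK.1, hK.2.1⟩
  rcases le_or_gt m j with hmj | hmj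
  · have h1 : Set.ncard {K : IntermediateField ℚ ℂ | K ≤ IntermediateField.adjoin ℚ (Set.range r) ∧
        Module.finrank ℚ K = 2 ^ j ∧ BadK (2 ^ j) L K} ≤
        Set.ncard {K : IntermediateField ℚ ℂ | K ≤ IntermediateField.adjoin ℚ (Set.range r) ∧
        Module.finrank ℚ K = 2 ^ j} :=
      Set.ncard_le_ncard (fun K hK => ⟨hK.1, hK.2.1⟩) hfin
    have h2 : (Set.ncard {K : IntermediateField ℚ ℂ | K ≤ IntermediateField.adjoin ℚ (Set.range r) ∧
        Module.finrank ℚ K = 2 ^ j ∧ BadK (2 ^ j) L K} : ℝ) ≤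
        (Set.ncard {K : IntermediateField ℚ ℂ | K ≤ IntermediateField.adjoin ℚ (Set.range r) ∧
        Module.finrank ℚ K = 2 ^ j} : ℝ) := Nat.cast_le.mpr h1
    refine h2.trans ?_
    exact le_mul_of_one_le_left (Nat.cast_nonneg _) (small_le j m hmj)
  have c1 := cnt r hfr (fun x0 h0 => hN m r a hra x0 h0) hfin.toFinset (by
    intro K hK
    rw [Set.Finite.mem_toFinset] at hK
    exact hFD m j r a hra K hK.1 hK.2)
  have c2 := cnt r hfr (fun x0 h0 => hN m r a hra x0 h0) hfin'.toFinset (by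
    intro K hK
    rw [Set.Finite.mem_toFinset] at hK
    exact hFD m j r a hra K hK.1 hK.2.1)
  -- all free tuples are counted in `c1`
  have e1 : Set.ncard {x : Fin j → Finset (Fin m) | Fre x} = hfin.toFinset.card * N := by
    rw [← c1, ← Set.ncard_coe_finset]
    congr 1
    ext x
    constructor
    · intro hx
      refine Finset.mem_coe.2 ?_
      rw [Finset.mem_filter]
      refine ⟨Finset.mem_univ _, hx, ?_⟩
      rw [Set.Finite.mem_toFinset]
      exact ⟨KX_le r x, (hfr x).2 hx⟩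
    · intro hx
      have hx' := Finset.mem_coe.1 hx
      rw [Finset.mem_filter] at hx'
      exact hx'.2.1
  -- the tuples of `c2` are bad
  have e2 : hfin'.toFinset.card * N ≤
      Set.ncard {x : Fin j → Finset (Fin m) | BadT r L x} := by
    rw [← c2, ← Set.ncard_coe_finset]
    refine Set.ncard_le_ncard ?_ (Set.toFinite _)
    intro x hx
    have hx' := Finset.mem_coe.1 hx
    rw [Finset.mem_filter, Set.Finite.mem_toFinset] at hx'
    obtain ⟨_, hfx, _, _, β, hβ, hb⟩ := hx'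
    show BadT r L x
    by_contra hgood
    exact hb (hFG j m r a L x hra hα hfx hgood β hβ)
  have hd := hEPs j m r a L hra hL
  have hf := hFF j m (by omega)
  rw [Set.ncard_eq_toFinset_card _ hfin, Set.ncard_eq_toFinset_card _ hfin']
  have hNpos : (0 : ℝ) < N := by
    have : 0 < N := hN1
    exact_mod_cast this
  have e2' : ((hfin'.toFinset.card : ℕ) : ℝ) * N ≤
      (Set.ncard {x : Fin j → Finset (Fin m) | BadT r L x} : ℝ) := by
    exact_mod_cast e2
  have e1' : (Set.ncard {x : Fin j → Finset (Fin m) | Fre x} : ℝ) =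
      ((hfin.toFinset.card : ℕ) : ℝ) * N := by
    rw [e1]
    push_cast
    ring
  rw [e1'] at hf
  have hb := beta_le j m
  set B : ℝ := ((2 : ℝ) ^ (j * (j + 4)) / 2 ^ m) ^ (1 / (2 : ℝ) ^ (j * (j + 4))) with hB
  have hB0 : 0 ≤ B := by positivity
  set G : ℝ := (2 : ℝ) ^ (-((m : ℝ) / 2 ^ (j * (j + 4)))) with hG
  have hG0 : 0 ≤ G := by positivity
  have hchain : ((hfin'.toFinset.card : ℕ) : ℝ) * N ≤
      (2 ^ (2 ^ j + 3) * G * ((hfin.toFinset.card : ℕ) : ℝ)) * N := by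
    calc ((hfin'.toFinset.card : ℕ) : ℝ) * N
        ≤ 2 * 2 ^ (2 ^ j) * B * 2 ^ (j * m) := le_trans e2' hd
      _ ≤ 2 * 2 ^ (2 ^ j) * (2 * G) * (2 * (((hfin.toFinset.card : ℕ) : ℝ) * N)) := by
          gcongr
      _ = (2 ^ (2 ^ j + 3) * G * ((hfin.toFinset.card : ℕ) : ℝ)) * N := by
          rw [pow_add 2 (2 ^ j) 3]
          ring
  exact le_of_mul_le_mul_right hchain hNpos

end Pool.Agent.SMQ
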