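import Pool.Agent.Lib.MP_452a87_nt.SpecE

/-!
# MP_452a87_nt, E/EGa: Cauchy-Schwarz (Gowers) for cubes in `V^j`
-/

set_option autoImplicit false

namespace Pool.Agent.SMQ

namespace EGaAux

variable {V : Type} [Fintype V] [DecidableEq V] [AddCommGroup V] {j : ℕ} {τ : Type} [Fintype τ]
  [DecidableEq τ]

/-- The sum over the cubes with the directions `T`. -/
def Kf (d : τ → Fin j) (T : Finset τ) (f : (Fin j → V) → ℝ) (w : τ → V) : ℝ :=
  ∑ a : Fin j → V, ∏ S ∈ T.powerset, f (a + ∑ s ∈ S, Pi.single (d s) (w s))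

/-- The product with the translate. -/
def tw (f : (Fin j → V) → ℝ) (i : Fin j) (w0 : V) : (Fin j → V) → ℝ := fun a =>
  f a * f (a + Pi.single i w0)

omit [DecidableEq V] [Fintype τ] in
lemma Kf_insert (d : τ → Fin j) (T : Finset τ) (s0 : τ) (h0 : s0 ∉ T) (f : (Fin j → V) → ℝ)
    (w : τ → V) : Kf d (insert s0 T) f w = Kf d T (tw f (d s0) (w s0)) w := by
  unfold Kf tw
  refine Finset.sum_congr rfl fun a _ => ?_
  rw [Finset.prod_powerset_insert h0, ← Finset.prod_mul_distrib]
  refine Finset.prod_congr rfl fun S hS => ?_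
  have hS0 : s0 ∉ S := fun h => h0 (Finset.mem_powerset.1 hS h)
  rw [Finset.sum_insert hS0]
  congr 2
  abel

omit [DecidableEq V] [Fintype τ] in
lemma Kf_update (d : τ → Fin j) (T : Finset τ) (s0 : τ) (h0 : s0 ∉ T) (f : (Fin j → V) → ℝ)
    (w : τ → V) (c : V) : Kf d T f (Function.update w s0 c) = Kf d T f w := by
  unfold Kf
  refine Finset.sum_congr rfl fun a _ => ?_
  refine Finset.prod_congr rfl fun S hS => ?_
  congr 2
  refine Finset.sum_congr rfl fun s hs => ?_
  rw [Function.update_of_ne]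
  rintro rfl
  exact h0 (Finset.mem_powerset.1 hS hs)

omit [DecidableEq V] [AddCommGroup V] in
/-- Averaging over one coordinate. -/
lemma swap (s0 : τ) (Φ : V → (τ → V) → ℝ) (hΦ : ∀ w0 w c, Φ w0 (Function.update w s0 c) = Φ w0 w) :
    (Fintype.card V : ℝ) * ∑ w : τ → V, Φ (w s0) w = ∑ w0 : V, ∑ w : τ → V, Φ w0 w := by
  have hinv : Function.Involutive
      (fun p : V × (τ → V) => (p.2 s0, Function.update p.2 s0 p.1)) := by
    rintro ⟨w0, w⟩
    simp
  have h1 : ∑ p : V × (τ → V), Φ (p.2 s0) p.2 = ∑ p : V × (τ → V), Φ p.1 p.2 := by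
    have h2 := Equiv.sum_comp (hinv.toPerm _) fun p : V × (τ → V) => Φ (p.2 s0) p.2
    rw [← h2]
    refine Finset.sum_congr rfl fun p _ => ?_
    show Φ (Function.update p.2 s0 p.1 s0) (Function.update p.2 s0 p.1) = _
    rw [hΦ, Function.update_self]
  rw [Fintype.sum_prod_type, Fintype.sum_prod_type] at h1
  dsimp only at h1
  rw [← h1, Finset.sum_const, Finset.card_univ, nsmul_eq_mul]

/-- `Pi.single`. -/
def s1 (i : Fin j) (v : V) : Fin j → V := Pi.single i v

omit [Fintype V] [DecidableEq V] in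
lemma s1_add (i : Fin j) (v w : V) : s1 i (v + w) = s1 i v + s1 i w := by
  unfold s1
  rw [Pi.single_add]

omit [DecidableEq V] in
/-- Cauchy-Schwarz in one direction. -/
lemma cs (f : (Fin j → V) → ℝ) (i : Fin j) :
    ((∑ a, f a) / (Fintype.card V : ℝ) ^ j) ^ 2 ≤
      (∑ w0 : V, ∑ a, tw f i w0 a) / (Fintype.card V : ℝ) ^ (j + 1) := by
  have hn : (0 : ℝ) < Fintype.card V := by exact_mod_cast Fintype.card_pos
  set n : ℝ := (Fintype.card V : ℝ) with hndef
  let g : (Fin j → V) → ℝ := fun a => ∑ w0 : V, f (a + s1 i w0)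
  have htr : ∀ (w0 : V) (F : (Fin j → V) → ℝ),
      ∑ a : Fin j → V, F (a + s1 i w0) = ∑ a, F a :=
    fun w0 F => Equiv.sum_comp (Equiv.addRight (s1 i w0)) F
  have hg : ∀ a w0, g (a + s1 i w0) = g a := by
    intro a w0
    show ∑ v : V, f (a + s1 i w0 + s1 i v) = ∑ v : V, f (a + s1 i v)
    rw [← Equiv.sum_comp (Equiv.addLeft w0) fun v => f (a + s1 i v)]
    refine Finset.sum_congr rfl fun v _ => ?_
    show f (a + s1 i w0 + s1 i v) = f (a + s1 i (w0 + v))
    rw [s1_add, add_assoc]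
  have e1 : ∑ w0 : V, ∑ a, tw f i w0 a = ∑ a, f a * g a := by
    rw [Finset.sum_comm]
    refine Finset.sum_congr rfl fun a _ => ?_
    unfold tw
    rw [← Finset.mul_sum]
    rfl
  have e2 : ∑ a, g a = n * ∑ a, f a := by
    show ∑ a, ∑ w0 : V, f (a + s1 i w0) = _
    rw [Finset.sum_comm]
    simp only [htr]
    rw [Finset.sum_const, Finset.card_univ, nsmul_eq_mul]
  have e3 : ∑ a, g a ^ 2 = n * ∑ a, f a * g a := by
    have e4 : ∀ a, g a ^ 2 = ∑ w0 : V, f (a + s1 i w0) * g (a + s1 i w0) := by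
      intro a
      simp only [hg]
      rw [← Finset.sum_mul, sq]
    simp only [e4]
    rw [Finset.sum_comm]
    have e5 : ∀ w0 : V, ∑ a, f (a + s1 i w0) * g (a + s1 i w0) =
        ∑ a, f a * g a := fun w0 => htr w0 fun a => f a * g a
    simp only [e5]
    rw [Finset.sum_const, Finset.card_univ, nsmul_eq_mul]
  have e6 : (∑ a, g a) ^ 2 ≤ n ^ j * ∑ a, g a ^ 2 := by
    have := sq_sum_le_card_mul_sum_sq (s := (Finset.univ : Finset (Fin j → V))) (f := g)
    rwa [Finset.card_univ, Fintype.card_fun, Fintype.card_fin, Nat.cast_pow] at this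
  rw [e2, e3] at e6
  rw [e1, div_pow, div_le_div_iff₀ (by positivity) (by positivity)]
  have e7 : n * (∑ a, f a) ^ 2 ≤ n ^ j * ∑ a, f a * g a := by
    have e8 : n * (n * (∑ a, f a) ^ 2) ≤ n * (n ^ j * ∑ a, f a * g a) := by
      calc n * (n * (∑ a, f a) ^ 2) = (n * ∑ a, f a) ^ 2 := by ring
        _ ≤ n ^ j * (n * ∑ a, f a * g a) := e6
        _ = n * (n ^ j * ∑ a, f a * g a) := by ring
    exact le_of_mul_le_mul_left e8 hn
  calc (∑ a, f a) ^ 2 * n ^ (j + 1) = n ^ j * (n * (∑ a, f a) ^ 2) := by ring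
    _ ≤ n ^ j * (n ^ j * ∑ a, f a * g a) := mul_le_mul_of_nonneg_left e7 (by positivity)
    _ = (∑ a, f a * g a) * (n ^ j) ^ 2 := by ring

lemma main (d : τ → Fin j) (T : Finset τ) : ∀ f : (Fin j → V) → ℝ, (∀ a, 0 ≤ f a) →
    ((∑ a, f a) / (Fintype.card V : ℝ) ^ j) ^ (2 ^ T.card) ≤
      (∑ w : τ → V, Kf d T f w) / (Fintype.card V : ℝ) ^ (j + Fintype.card τ) := by
  have hn : (0 : ℝ) < Fintype.card V := by exact_mod_cast Fintype.card_pos
  induction T using Finset.induction_on with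
  | empty =>
    intro f _
    rw [Finset.card_empty, pow_zero, pow_one]
    unfold Kf
    simp only [Finset.powerset_empty, Finset.prod_singleton, Finset.sum_empty, add_zero]
    rw [Finset.sum_const, Finset.card_univ, Fintype.card_fun, nsmul_eq_mul, Nat.cast_pow, pow_add,
      mul_comm ((Fintype.card V : ℝ) ^ j), mul_div_mul_left _ _ (by positivity)]
  | insert s0 T h0 ih =>
    intro f hf
    set n : ℝ := (Fintype.card V : ℝ) with hndef
    have e1 : ∑ w : τ → V, Kf d (insert s0 T) f w =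
        (∑ w0 : V, ∑ w : τ → V, Kf d T (tw f (d s0) w0) w) / n := by
      rw [← swap s0 (fun w0 w => Kf d T (tw f (d s0) w0) w)
        (fun w0 w c => Kf_update d T s0 h0 _ w c), mul_div_cancel_left₀ _ hn.ne']
      exact Finset.sum_congr rfl fun w _ => Kf_insert d T s0 h0 f w
    have e2 : ∑ w0 : V, 1 / n * ((∑ a, tw f (d s0) w0 a) / n ^ j) ^ (2 ^ T.card) ≤
        (∑ w : τ → V, Kf d (insert s0 T) f w) / n ^ (j + Fintype.card τ) := by
      rw [e1, ← Finset.mul_sum, div_div, mul_comm n, ← div_div, Finset.sum_div, one_div_mul_eq_div]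
      refine div_le_div_of_nonneg_right ?_ hn.le
      exact Finset.sum_le_sum fun w0 _ => ih (tw f (d s0) w0) fun a => mul_nonneg (hf _) (hf _)
    refine le_trans ?_ e2
    have e3 := Real.pow_arith_mean_le_arith_mean_pow (Finset.univ : Finset V) (fun _ => 1 / n)
      (fun w0 => (∑ a, tw f (d s0) w0 a) / n ^ j) (fun _ _ => by positivity) (by
        rw [Finset.sum_const, Finset.card_univ, nsmul_eq_mul, ← hndef,
          mul_one_div_cancel hn.ne'])
      (fun w0 _ => div_nonneg (Finset.sum_nonneg fun a _ => mul_nonneg (hf _) (hf _))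
        (by positivity)) (2 ^ T.card)
    refine le_trans ?_ e3
    rw [Finset.card_insert_of_notMem h0, pow_succ, mul_comm (2 ^ T.card) 2, pow_mul]
    refine pow_le_pow_left₀ (sq_nonneg _) (le_trans (cs f (d s0)) (le_of_eq ?_)) _
    rw [← Finset.mul_sum, ← Finset.sum_div, pow_succ, ← hndef]
    field_simp

end EGaAux

open EGaAux in
theorem pEGa : S_EGa := by
  intro V _ _ _ j τ _ _ d f hf
  have h := main d (Finset.univ : Finset τ) f hf
  rw [Finset.card_univ] at h
  refine le_trans h (le_of_eq ?_)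
  congr 1
  unfold Kf
  rw [Finset.sum_comm]
  simp only [Finset.powerset_univ]

end Pool.Agent.SMQ
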