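import Pool.Agent.Lib.MP_452a87_nt.SpecE

set_option autoImplicit false

namespace Pool.Agent.SMQ

namespace EGbAux

theorem z2 (x : ZMod 2) (h : x ≠ 0) : x = 1 := by
  revert h
  revert x
  decide

theorem z2add (x y : ZMod 2) : x + y ≠ 0 ↔ (x ≠ 0 ∧ ¬ y ≠ 0) ∨ (y ≠ 0 ∧ ¬ x ≠ 0) := by
  revert x y
  decide

theorem sumNe {α : Type} [DecidableEq α] (A : Finset α) (v : α → ZMod 2) :
    ∑ l ∈ A, v l ≠ 0 ↔ Odd ((A.filter (fun l => v l ≠ 0)).card) := by
  have h1 : ∑ l ∈ A, v l = (((A.filter (fun l => v l ≠ 0)).card : ℕ) : ZMod 2) := by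
    rw [Finset.card_filter, Nat.cast_sum]
    refine Finset.sum_congr rfl fun l _ => ?_
    by_cases h : v l = 0
    · rw [if_neg (not_not.2 h), h]
      rfl
    · rw [if_pos h, z2 _ h]
      rfl
  rw [h1, ZMod.natCast_ne_zero_iff_odd]

/-- The set of a vector. -/
def ph {m : ℕ} (v : Fin m → ZMod 2) : Finset (Fin m) := Finset.univ.filter (fun l => v l ≠ 0)

theorem mem_ph {m : ℕ} (v : Fin m → ZMod 2) (l : Fin m) : l ∈ ph v ↔ v l ≠ 0 := by
  simp [ph]

theorem ph_surj {m : ℕ} : Function.Surjective (ph (m := m)) := by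
  intro A
  refine ⟨fun l => if l ∈ A then 1 else 0, ?_⟩
  ext l
  rw [mem_ph]
  by_cases h : l ∈ A <;> simp [h]

/-- The tuple of sets. -/
def Ph {j m : ℕ} (a : Fin j → Fin m → ZMod 2) : Fin j → Finset (Fin m) := fun i => ph (a i)

theorem Ph_surj {j m : ℕ} : Function.Surjective (Ph (j := j) (m := m)) := by
  intro x
  choose a ha using fun i => ph_surj (x i)
  exact ⟨a, funext ha⟩

theorem ncardLe {j m : ℕ} (A : Set (Fin j → Finset (Fin m))) [DecidablePred fun a => Ph a ∈ A] :
    (A.ncard : ℝ) ≤ ∑ a : Fin j → Fin m → ZMod 2, if Ph a ∈ A then (1 : ℝ) else 0 := by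
  have h1 : A = Ph '' (Ph ⁻¹' A) := (Set.image_preimage_eq A Ph_surj).symm
  have h2 : A.ncard ≤ (Ph ⁻¹' A).ncard := by
    conv_lhs => rw [h1]
    exact Set.ncard_image_le (Set.toFinite _)
  have h3 : (Ph ⁻¹' A).ncard = (Finset.univ.filter (fun a : Fin j → Fin m → ZMod 2 => Ph a ∈ A)).card := by
    rw [← Set.ncard_coe_finset]
    congr 1
    ext a
    simp
  rw [h3] at h2
  rw [← Finset.sum_filter, Finset.sum_const, nsmul_eq_mul, mul_one]
  exact_mod_cast h2

/-- The number of families with vanishing sum over a nonempty set. -/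
theorem cardZ {V τ : Type} [Fintype V] [DecidableEq V] [AddCommGroup V] [Fintype τ] [DecidableEq τ]
    (X : Finset τ) (hX : X.Nonempty) :
    (Finset.univ.filter (fun w : τ → V => ∑ p ∈ X, w p = 0)).card * Fintype.card V ≤
      Fintype.card V ^ Fintype.card τ := by
  obtain ⟨p0, hp0⟩ := hX
  have h1 : (Finset.univ.filter (fun w : τ → V => ∑ p ∈ X, w p = 0)).card * Fintype.card V =
      ((Finset.univ.filter (fun w : τ → V => ∑ p ∈ X, w p = 0)) ×ˢ (Finset.univ : Finset V)).card := by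
    rw [Finset.card_product, Finset.card_univ]
  have h2 : Fintype.card V ^ Fintype.card τ = (Finset.univ : Finset (τ → V)).card := by
    rw [Finset.card_univ, Fintype.card_fun]
  rw [h1, h2]
  refine Finset.card_le_card_of_injOn (fun q => q.1 + Pi.single p0 q.2) (fun _ _ => Finset.mem_coe.2 (Finset.mem_univ _)) ?_
  rintro ⟨w, v⟩ hw ⟨w', v'⟩ hw' h
  simp only [Finset.coe_product, Finset.coe_filter, Finset.mem_univ, true_and, Finset.coe_univ, Set.mem_prod,
    Set.mem_ofPred_eq, Set.mem_univ, and_true] at hw hw'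
  dsimp only at h
  have hs : ∀ (w : τ → V) (v : V), ∑ p ∈ X, w p = 0 → ∑ p ∈ X, (w + (Pi.single p0 v : τ → V)) p = v := by
    intro w v hw
    simp only [Pi.add_apply]
    rw [Finset.sum_add_distrib, hw, zero_add, Finset.sum_pi_single', if_pos hp0]
  have hv : v = v' := by
    rw [← hs w v hw, h, hs w' v' hw']
  subst hv
  have hww : w = w' := add_right_cancel h
  rw [hww]

theorem cardD {V τ : Type} [Fintype V] [DecidableEq V] [AddCommGroup V] [Fintype τ] [DecidableEq τ]
    [DecidablePred fun w : τ → V => ∃ X : Finset τ, X.Nonempty ∧ ∑ p ∈ X, w p = 0] :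
    (Finset.univ.filter (fun w : τ → V => ∃ X : Finset τ, X.Nonempty ∧ ∑ p ∈ X, w p = 0)).card * Fintype.card V ≤
      2 ^ Fintype.card τ * Fintype.card V ^ Fintype.card τ := by
  classical
  have h1 : (Finset.univ.filter (fun w : τ → V => ∃ X : Finset τ, X.Nonempty ∧ ∑ p ∈ X, w p = 0)) ⊆
      ((Finset.univ : Finset (Finset τ)).filter (fun X => X.Nonempty)).biUnion
        (fun X => Finset.univ.filter (fun w : τ → V => ∑ p ∈ X, w p = 0)) := by
    intro w hw
    rw [Finset.mem_filter] at hw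
    obtain ⟨-, X, hX, hw⟩ := hw
    rw [Finset.mem_biUnion]
    exact ⟨X, Finset.mem_filter.2 ⟨Finset.mem_univ _, hX⟩, Finset.mem_filter.2 ⟨Finset.mem_univ _, hw⟩⟩
  calc _ ≤ (((Finset.univ : Finset (Finset τ)).filter (fun X => X.Nonempty)).biUnion
        (fun X => Finset.univ.filter (fun w : τ → V => ∑ p ∈ X, w p = 0))).card * Fintype.card V :=
        Nat.mul_le_mul_right _ (Finset.card_le_card h1)
    _ ≤ (∑ X ∈ (Finset.univ : Finset (Finset τ)).filter (fun X => X.Nonempty),
        (Finset.univ.filter (fun w : τ → V => ∑ p ∈ X, w p = 0)).card) * Fintype.card V :=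
        Nat.mul_le_mul_right _ Finset.card_biUnion_le
    _ = ∑ X ∈ (Finset.univ : Finset (Finset τ)).filter (fun X => X.Nonempty),
        (Finset.univ.filter (fun w : τ → V => ∑ p ∈ X, w p = 0)).card * Fintype.card V := Finset.sum_mul _ _ _
    _ ≤ ∑ X ∈ (Finset.univ : Finset (Finset τ)).filter (fun X => X.Nonempty), Fintype.card V ^ Fintype.card τ :=
        Finset.sum_le_sum fun X hX => cardZ X (Finset.mem_filter.1 hX).2
    _ = ((Finset.univ : Finset (Finset τ)).filter (fun X => X.Nonempty)).card * Fintype.card V ^ Fintype.card τ := by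
        rw [Finset.sum_const, smul_eq_mul]
    _ ≤ 2 ^ Fintype.card τ * Fintype.card V ^ Fintype.card τ := by
        refine Nat.mul_le_mul_right _ ?_
        refine (Finset.card_filter_le _ _).trans ?_
        rw [Finset.card_univ, Fintype.card_finset]

/-- A good pair exists. -/
theorem good {V τ : Type} [Fintype V] [DecidableEq V] [AddCommGroup V] [Fintype τ] [DecidableEq τ] (hEGa : S_EGa)
    (j : ℕ) (d : τ → Fin j) (P : (Fin j → V) → Prop) (f : (Fin j → V) → ℝ) (hf1 : ∀ a, P a → f a = 1)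
    (hf2 : ∀ a, ¬ P a → f a = 0) (N : ℝ) (hN0 : 0 ≤ N) (hN : N ≤ ∑ a, f a) (hV : 0 < Fintype.card V)
    (h : (2 : ℝ) ^ Fintype.card τ / Fintype.card V < (N / (Fintype.card V : ℝ) ^ j) ^ (2 ^ Fintype.card τ)) :
    ∃ (a : Fin j → V) (w : τ → V), (∀ S : Finset τ, P (a + ∑ s ∈ S, Pi.single (d s) (w s))) ∧
      ∀ X : Finset τ, X.Nonempty → ∑ p ∈ X, w p ≠ 0 := by
  classical
  have hf0 : ∀ a, 0 ≤ f a := by
    intro a
    by_cases hP : P a
    · rw [hf1 a hP]
      norm_num
    · rw [hf2 a hP]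
  have hfle : ∀ a, f a ≤ 1 := by
    intro a
    by_cases hP : P a
    · rw [hf1 a hP]
    · rw [hf2 a hP]
      norm_num
  have hE := hEGa V j τ d f hf0
  have h1 : (2 : ℝ) ^ Fintype.card τ / Fintype.card V <
      ((∑ a, f a) / (Fintype.card V : ℝ) ^ j) ^ (2 ^ Fintype.card τ) := by
    refine lt_of_lt_of_le h ?_
    refine pow_le_pow_left₀ (by positivity) ?_ _
    exact div_le_div_of_nonneg_right hN (by positivity)
  have h2 := lt_of_lt_of_le h1 hE
  by_contra hcon
  push Not at hcon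
  set D := Finset.univ.filter (fun w : τ → V => ∃ X : Finset τ, X.Nonempty ∧ ∑ p ∈ X, w p = 0) with hD
  have h4 : ∀ (a : Fin j → V) (w : τ → V), (∏ S : Finset τ, f (a + ∑ s ∈ S, Pi.single (d s) (w s))) ≤
      if w ∈ D then (1 : ℝ) else 0 := by
    intro a w
    by_cases hw : ∀ S : Finset τ, P (a + ∑ s ∈ S, Pi.single (d s) (w s))
    · rw [if_pos]
      · exact Finset.prod_le_one (fun _ _ => hf0 _) fun S _ => hfle _
      · rw [hD, Finset.mem_filter]
        exact ⟨Finset.mem_univ _, hcon a w hw⟩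
    · push Not at hw
      obtain ⟨S, hS⟩ := hw
      rw [Finset.prod_eq_zero (Finset.mem_univ S) (hf2 _ hS)]
      split_ifs <;> norm_num
  have h5 : (∑ a : Fin j → V, ∑ w : τ → V, ∏ S : Finset τ, f (a + ∑ s ∈ S, Pi.single (d s) (w s))) ≤
      (Fintype.card V : ℝ) ^ j * D.card := by
    calc (∑ a : Fin j → V, ∑ w : τ → V, ∏ S : Finset τ, f (a + ∑ s ∈ S, Pi.single (d s) (w s)))
        ≤ ∑ a : Fin j → V, ∑ w : τ → V, if w ∈ D then (1 : ℝ) else 0 :=
          Finset.sum_le_sum fun a _ => Finset.sum_le_sum fun w _ => h4 a w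
      _ = (Fintype.card V : ℝ) ^ j * D.card := by
          rw [Finset.sum_const, Finset.card_univ, Fintype.card_fun, Fintype.card_fin, nsmul_eq_mul,
            Finset.sum_ite_mem, Finset.univ_inter, Finset.sum_const, nsmul_eq_mul, mul_one]
          push_cast
          rfl
  have h6 : (D.card : ℝ) * Fintype.card V ≤ 2 ^ Fintype.card τ * (Fintype.card V : ℝ) ^ Fintype.card τ := by
    have := cardD (V := V) (τ := τ)
    exact_mod_cast this
  have hn : (0 : ℝ) < (Fintype.card V : ℝ) := by exact_mod_cast hV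
  refine absurd h2 (not_lt.2 ?_)
  rw [div_le_div_iff₀ (by positivity) hn]
  calc _ ≤ ((Fintype.card V : ℝ) ^ j * D.card) * (Fintype.card V : ℝ) :=
        mul_le_mul_of_nonneg_right h5 hn.le
    _ = (Fintype.card V : ℝ) ^ j * (D.card * (Fintype.card V : ℝ)) := by ring
    _ ≤ (Fintype.card V : ℝ) ^ j * (2 ^ Fintype.card τ * (Fintype.card V : ℝ) ^ Fintype.card τ) :=
        mul_le_mul_of_nonneg_left h6 (by positivity)
    _ = 2 ^ Fintype.card τ * (Fintype.card V : ℝ) ^ (j + Fintype.card τ) := by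
        rw [pow_add]
        ring

theorem memSd {k m : ℕ} (A : Finset (Fin k)) (w : Fin k → Fin m → ZMod 2) (l : Fin m) :
    l ∈ sd A (fun t => ph (w t)) ↔ ∑ t ∈ A, w t l ≠ 0 := by
  unfold sd
  rw [Finset.mem_filter, sumNe]
  have h7 : (A.filter fun t => l ∈ ph (w t)) = A.filter (fun t => w t l ≠ 0) := by
    ext t
    rw [Finset.mem_filter, Finset.mem_filter, mem_ph]
  rw [h7]
  simp

/-- The coordinates of a sum over a cube. -/
theorem cubeCoord {j k m : ℕ} (w : Fin j × Fin k → Fin m → ZMod 2) (W : Fin j → Finset (Fin k)) (i : Fin j) (l : Fin m) :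
    (∑ s ∈ Finset.univ.filter (fun p : Fin j × Fin k => p.2 ∈ W p.1),
      (Pi.single s.1 (w s) : Fin j → Fin m → ZMod 2)) i l = ∑ t ∈ W i, w (i, t) l := by
  rw [Finset.sum_apply, Finset.sum_apply, Finset.sum_filter, Fintype.sum_prod_type, Finset.sum_eq_single i]
  · rw [← Finset.sum_filter]
    have h6 : Finset.univ.filter (fun t : Fin k => t ∈ W i) = W i := by
      ext t
      simp
    simp only [h6]
    refine Finset.sum_congr rfl fun t _ => ?_
    rw [Pi.single_eq_same]
  · intro i' _ hi'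
    refine Finset.sum_eq_zero fun t _ => ?_
    split_ifs
    · rw [Pi.single_eq_of_ne (Ne.symm hi')]
      rfl
    · rfl
  · intro h
    exact absurd (Finset.mem_univ i) h

end EGbAux

open EGbAux in
theorem pEGb (hEGa : S_EGa) : S_EGb := by
  classical
  intro j k m A hA
  have hcV : Fintype.card (Fin m → ZMod 2) = 2 ^ m := by
    rw [Fintype.card_fun, ZMod.card, Fintype.card_fin]
  have hcτ : Fintype.card (Fin j × Fin k) = j * k := by
    rw [Fintype.card_prod, Fintype.card_fin, Fintype.card_fin]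
  obtain ⟨a, w, hcube, hind⟩ := good (V := Fin m → ZMod 2) (τ := Fin j × Fin k) hEGa j (fun p => p.1)
    (fun a => Ph a ∈ A) (fun a => if Ph a ∈ A then (1 : ℝ) else 0) (fun a ha => if_pos ha) (fun a ha => if_neg ha)
    (A.ncard : ℝ) (by positivity) (ncardLe A) (by rw [hcV]; positivity) (by
      rw [hcV, hcτ]
      have h2 : (((2 ^ m : ℕ) : ℝ)) ^ j = 2 ^ (j * m) := by
        push_cast
        rw [← pow_mul, mul_comm]
      rw [h2]
      push_cast
      exact hA)
  refine ⟨fun i => ph (a i), fun i l => ph (w (i, l)), ?_, ?_⟩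
  · intro X hX
    have h4 := hind X hX
    obtain ⟨l, hl⟩ := Function.ne_iff.1 h4
    refine ⟨l, ?_⟩
    rw [Finset.sum_apply, Pi.zero_apply] at hl
    have h6 := (sumNe X (fun p => w p l)).1 hl
    have h5 : (X.filter fun p => l ∈ ph (w (p.1, p.2))) = X.filter (fun p => w p l ≠ 0) := by
      ext p
      rw [Finset.mem_filter, Finset.mem_filter, mem_ph]
    rw [h5]
    exact h6
  · intro W
    have h4 := hcube (Finset.univ.filter (fun p : Fin j × Fin k => p.2 ∈ W p.1))
    have h5 : (fun i => symmDiff (ph (a i)) (sd (W i) (fun l => ph (w (i, l))))) =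
        Ph (a + ∑ s ∈ Finset.univ.filter (fun p : Fin j × Fin k => p.2 ∈ W p.1), Pi.single s.1 (w s)) := by
      funext i
      ext l
      unfold Ph
      rw [mem_ph, Pi.add_apply, Pi.add_apply, cubeCoord, z2add, Finset.mem_symmDiff, mem_ph,
        memSd (W i) (fun t => w (i, t)) l]
    rw [h5]
    exact h4

end Pool.Agent.SMQ
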