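import Pool.Agent.Lib.MP_452a87_nt.SpecE

/-!
# 452a87 E/EIt: cubes of primes in dense sets of the box
-/

set_option autoImplicit false

namespace Pool.Agent.SMQ

open Finset

namespace EItAux

/-- The tuples of the other coordinates. -/
abbrev Om {j : ℕ} (X : Fin j → ℕ) (i0 : Fin j) : Type :=
  (i : {i : Fin j // i ≠ i0}) → {n : ℕ // n ∈ Finset.Icc 1 (X i.1)}

/-- Put together the coordinate `n` and the others. -/
def ext {j : ℕ} (X : Fin j → ℕ) (i0 : Fin j) (p : ℕ × Om X i0) : Fin j → ℕ :=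
  fun i => if h : i = i0 then p.1 else (p.2 ⟨i, h⟩).1

theorem ext_self {j : ℕ} (X : Fin j → ℕ) (i0 : Fin j) (p : ℕ × Om X i0) : ext X i0 p i0 = p.1 := by
  unfold ext
  rw [dif_pos rfl]

theorem ext_inj {j : ℕ} (X : Fin j → ℕ) (i0 : Fin j) : Function.Injective (ext X i0) := by
  rintro ⟨n, ω⟩ ⟨n', ω'⟩ h
  have h1 : n = n' := by
    have := congrFun h i0
    rwa [ext_self, ext_self] at this
  have h2 : ω = ω' := by
    funext i
    have := congrFun h i.1
    unfold ext at this
    rw [dif_neg i.2, dif_neg i.2] at this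
    exact Subtype.ext this
  rw [h1, h2]

theorem ext_update {j : ℕ} (X : Fin j → ℕ) (i0 : Fin j) (q n : ℕ) (ω : Om X i0) :
    ext X i0 (q * n, ω) = Function.update (ext X i0 (n, ω)) i0 (q * ext X i0 (n, ω) i0) := by
  funext i
  by_cases h : i = i0
  · subst h
    rw [Function.update_self, ext_self, ext_self]
  · rw [Function.update_of_ne h]
    unfold ext
    rw [dif_neg h, dif_neg h]

theorem ncard_ext {j : ℕ} (X : Fin j → ℕ) (i0 : Fin j) (N : ℕ) (B : (Fin j → ℕ) → Prop) :
    Set.ncard {p : ℕ × Om X i0 | 1 ≤ p.1 ∧ p.1 ≤ N ∧ B (ext X i0 p)} =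
      Set.ncard {a : Fin j → ℕ | (∀ i, 1 ≤ a i ∧ a i ≤ Function.update X i0 N i) ∧ B a} := by
  rw [← Set.ncard_image_of_injective _ (ext_inj X i0)]
  congr 1
  ext a
  constructor
  · rintro ⟨p, ⟨h1, h2, h3⟩, rfl⟩
    refine ⟨?_, h3⟩
    intro i
    by_cases h : i = i0
    · subst h
      rw [Function.update_self, ext_self]
      exact ⟨h1, h2⟩
    · rw [Function.update_of_ne h]
      unfold ext
      rw [dif_neg h]
      exact Finset.mem_Icc.mp (p.2 ⟨i, h⟩).2
  · rintro ⟨h1, h2⟩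
    have hmem : ∀ i : {i : Fin j // i ≠ i0}, a i.1 ∈ Finset.Icc 1 (X i.1) := by
      intro i
      have := h1 i.1
      rw [Function.update_of_ne i.2] at this
      exact Finset.mem_Icc.mpr this
    have heq : ext X i0 (a i0, fun i => ⟨a i.1, hmem i⟩) = a := by
      funext i
      by_cases h : i = i0
      · subst h
        rw [ext_self]
      · unfold ext
        rw [dif_neg h]
    refine ⟨(a i0, fun i => ⟨a i.1, hmem i⟩), ⟨?_, ?_, ?_⟩, heq⟩
    · exact (h1 i0).1
    · have := (h1 i0).2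
      rwa [Function.update_self] at this
    · rw [heq]
      exact h2

theorem card_Om {j : ℕ} (X : Fin j → ℕ) (i0 : Fin j) :
    Fintype.card (Om X i0) = ∏ i : {i : Fin j // i ≠ i0}, X i.1 := by
  rw [Fintype.card_pi]
  refine Finset.prod_congr rfl fun i _ => ?_
  rw [Fintype.card_coe, Nat.card_Icc]
  omega

/-- The inductive claim. -/
def Clm (j k : ℕ) (T : Finset (Fin j × Fin k)) : Prop :=
  ∀ (δ : ℝ) (Y0 : ℕ), 0 < δ → δ ≤ 1 → ∃ X0 : ℕ, ∀ X : Fin j → ℕ, (∀ i, X0 ≤ X i) →
    ∀ B : (Fin j → ℕ) → Prop,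
    δ * (∏ i, (X i : ℝ)) ≤ (Set.ncard {a : Fin j → ℕ | (∀ i, 1 ≤ a i ∧ a i ≤ X i) ∧ B a} : ℝ) →
    ∃ (c : Fin j → ℕ) (q : Bool → Fin j × Fin k → ℕ), (∀ i, 1 ≤ c i) ∧
      (∀ s, ∀ p ∈ T, (q s p).Prime ∧ Y0 < q s p) ∧
      (∀ s s' p p', p ∈ T → p' ∈ T → q s p = q s' p' → s = s' ∧ p = p') ∧
      ∀ S : Finset (Fin j × Fin k),
        B (fun i => c i * ∏ p ∈ T.filter (fun p => p.1 = i), q (decide (p ∈ S)) p)

theorem clm_empty (j k : ℕ) : Clm j k ∅ := by
  intro δ Y0 hδ _
  refine ⟨1, fun X hX B hB => ?_⟩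
  have hpos : (0 : ℝ) < δ * (∏ i, (X i : ℝ)) := by
    refine mul_pos hδ (Finset.prod_pos fun i _ => ?_)
    have := hX i
    exact_mod_cast this
  have h1 : (0 : ℝ) < (Set.ncard {a : Fin j → ℕ | (∀ i, 1 ≤ a i ∧ a i ≤ X i) ∧ B a} : ℝ) :=
    lt_of_lt_of_le hpos hB
  have h2 : 0 < Set.ncard {a : Fin j → ℕ | (∀ i, 1 ≤ a i ∧ a i ≤ X i) ∧ B a} := by exact_mod_cast h1
  obtain ⟨a, ha, hBa⟩ := Set.nonempty_of_ncard_ne_zero h2.ne'
  refine ⟨a, fun _ _ => 0, fun i => (ha i).1, ?_, ?_, ?_⟩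
  · intro s p hp
    exact absurd hp (Finset.notMem_empty p)
  · intro s s' p p' hp
    exact absurd hp (Finset.notMem_empty p)
  · intro S
    have : (fun i => a i * ∏ p ∈ (∅ : Finset (Fin j × Fin k)).filter (fun p => p.1 = i), 0) = a := by
      funext i
      rw [Finset.filter_empty, Finset.prod_empty, mul_one]
    rw [this]
    exact hBa

theorem clm_insert (hOn : S_EOn) (j k : ℕ) (T : Finset (Fin j × Fin k)) (p0 : Fin j × Fin k)
    (hp0 : p0 ∉ T) (ih : Clm j k T) : Clm j k (insert p0 T) := by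
  intro δ Y0 hδ hδ1
  obtain ⟨Y, X1, δ', hY, hδ', hδ'1, hstep⟩ := hOn δ Y0 hδ hδ1
  obtain ⟨X0', hih⟩ := ih δ' (max Y Y0) hδ' hδ'1
  refine ⟨X1 + Y * X0' + 1, fun X hX B hB => ?_⟩
  set i0 : Fin j := p0.1 with hi0
  have hXpos : ∀ i, 0 < X i := fun i => by
    have := hX i
    omega
  have hΩ : 0 < Fintype.card (Om X i0) := by
    rw [card_Om]
    exact Finset.prod_pos fun i _ => hXpos i.1
  have hprod : (∏ i, (X i : ℝ)) = X i0 * Fintype.card (Om X i0) := by
    rw [card_Om, Fintype.prod_eq_mul_prod_subtype_ne (fun i => (X i : ℝ)) i0]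
    push_cast
    rfl
  have hB1 : δ * X i0 * Fintype.card (Om X i0) ≤
      (Set.ncard {p : ℕ × Om X i0 | 1 ≤ p.1 ∧ p.1 ≤ X i0 ∧ B (ext X i0 (p.1, p.2))} : ℝ) := by
    have h1 := ncard_ext X i0 (X i0) B
    rw [Function.update_eq_self] at h1
    have h2 : {p : ℕ × Om X i0 | 1 ≤ p.1 ∧ p.1 ≤ X i0 ∧ B (ext X i0 (p.1, p.2))} =
        {p : ℕ × Om X i0 | 1 ≤ p.1 ∧ p.1 ≤ X i0 ∧ B (ext X i0 p)} := rfl
    rw [h2, h1, mul_assoc, ← hprod]
    exact hB
  obtain ⟨q, q', M, hq, hq', hqq, hY0q, hY0q', hqY, hqY', hXM, hqM, hqM', hcount⟩ :=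
    hstep (X i0) (by have := hX i0; omega) (Om X i0) (fun n ω => B (ext X i0 (n, ω))) hB1 hΩ
  have hM : X0' ≤ M := by
    have h1 : Y * X0' ≤ Y * M := by
      have := hX i0
      omega
    exact Nat.le_of_mul_le_mul_left h1 (by omega)
  set X' : Fin j → ℕ := Function.update X i0 M with hX'
  have hX'0 : ∀ i, X0' ≤ X' i := by
    intro i
    by_cases h : i = i0
    · rw [hX', h, Function.update_self]
      exact hM
    · rw [hX', Function.update_of_ne h]
      have h1 := hX i
      have h2 : X0' ≤ Y * X0' := Nat.le_mul_of_pos_left _ (by omega)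
      omega
  set B' : (Fin j → ℕ) → Prop := fun a =>
    B (Function.update a i0 (q * a i0)) ∧ B (Function.update a i0 (q' * a i0)) with hB'
  have hprod' : (∏ i, (X' i : ℝ)) = M * Fintype.card (Om X i0) := by
    rw [card_Om, Fintype.prod_eq_mul_prod_subtype_ne (fun i => (X' i : ℝ)) i0]
    push_cast
    congr 1
    · rw [hX', Function.update_self]
    · refine Finset.prod_congr rfl fun i _ => ?_
      rw [hX', Function.update_of_ne i.2]
  have hB'1 : δ' * (∏ i, (X' i : ℝ)) ≤
      (Set.ncard {a : Fin j → ℕ | (∀ i, 1 ≤ a i ∧ a i ≤ X' i) ∧ B' a} : ℝ) := by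
    have h1 := ncard_ext X i0 M B'
    rw [← h1, hprod', ← mul_assoc]
    refine le_trans hcount (le_of_eq ?_)
    congr 2
    ext p
    simp only [Set.mem_ofPred_eq, hB']
    rw [← ext_update X i0 q p.1 p.2, ← ext_update X i0 q' p.1 p.2]
  obtain ⟨c, qq, hc, hqq1, hqq2, hqq3⟩ := hih X' hX'0 B' hB'1
  set Q : Bool → Fin j × Fin k → ℕ := fun s p => if p = p0 then (if s then q' else q) else qq s p with hQ
  have hQ0 : ∀ s, Q s p0 = if s then q' else q := by
    intro s
    simp only [hQ, if_true]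
  have hQT : ∀ s, ∀ p ∈ T, Q s p = qq s p := by
    intro s p hp
    have : p ≠ p0 := fun h => hp0 (h ▸ hp)
    simp only [hQ, if_neg this]
  have hq0Y : ∀ s : Bool, (if s then q' else q) ≤ Y := by
    intro s
    cases s
    · exact hqY
    · exact hqY'
  refine ⟨c, Q, hc, ?_, ?_, ?_⟩
  · intro s p hp
    rw [Finset.mem_insert] at hp
    rcases hp with rfl | hp
    · rw [hQ0]
      cases s
      · exact ⟨hq, hY0q⟩
      · exact ⟨hq', hY0q'⟩
    · rw [hQT s p hp]
      have := hqq1 s p hp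
      exact ⟨this.1, lt_of_le_of_lt (le_max_right _ _) this.2⟩
  · intro s s' p p' hp hp' heq
    rw [Finset.mem_insert] at hp hp'
    rcases hp with rfl | hp <;> rcases hp' with rfl | hp'
    · rw [hQ0, hQ0] at heq
      refine ⟨?_, rfl⟩
      cases s <;> cases s'
      · rfl
      · exact absurd heq hqq
      · exact absurd heq.symm hqq
      · rfl
    · rw [hQ0, hQT s' p' hp'] at heq
      have h1 := (hqq1 s' p' hp').2
      have h2 := hq0Y s
      have h3 := le_max_left Y Y0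
      omega
    · rw [hQ0, hQT s p hp] at heq
      have h1 := (hqq1 s p hp).2
      have h2 := hq0Y s'
      have h3 := le_max_left Y Y0
      omega
    · rw [hQT s p hp, hQT s' p' hp'] at heq
      exact hqq2 s s' p p' hp hp' heq
  · intro S
    have h1 := hqq3 S
    have hval : ∀ i, ∏ p ∈ T.filter (fun p => p.1 = i), Q (decide (p ∈ S)) p =
        ∏ p ∈ T.filter (fun p => p.1 = i), qq (decide (p ∈ S)) p := by
      intro i
      refine Finset.prod_congr rfl fun p hp => ?_
      exact hQT _ p (Finset.mem_filter.mp hp).1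
    have hfun : (fun i => c i * ∏ p ∈ (insert p0 T).filter (fun p => p.1 = i), Q (decide (p ∈ S)) p) =
        Function.update (fun i => c i * ∏ p ∈ T.filter (fun p => p.1 = i), qq (decide (p ∈ S)) p) i0
          ((if decide (p0 ∈ S) then q' else q) *
            (fun i => c i * ∏ p ∈ T.filter (fun p => p.1 = i), qq (decide (p ∈ S)) p) i0) := by
      funext i
      by_cases h : i = i0
      · subst h
        rw [Function.update_self, Finset.filter_insert, if_pos rfl, Finset.prod_insert, hval, hQ0]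
        · ring
        · intro hmem
          exact hp0 (Finset.mem_filter.mp hmem).1
      · rw [Function.update_of_ne h, Finset.filter_insert, if_neg (fun h' => h h'.symm), hval]
    rw [hfun]
    by_cases hS : p0 ∈ S
    · rw [decide_eq_true hS]
      exact h1.2
    · rw [decide_eq_false hS]
      exact h1.1

theorem clm_all (hOn : S_EOn) (j k : ℕ) (T : Finset (Fin j × Fin k)) : Clm j k T := by
  induction T using Finset.induction_on with
  | empty => exact clm_empty j k
  | insert p0 T hp0 ih => exact clm_insert hOn j k T p0 hp0 ih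

end EItAux

open EItAux

theorem pEIt (hOn : S_EOn) : S_EIt := by
  intro j k δ hδ hδ1
  obtain ⟨X0, hX0⟩ := clm_all hOn j k Finset.univ δ 1 hδ hδ1
  refine ⟨X0, fun X hX B hB => ?_⟩
  obtain ⟨c, q, hc, hq1, hq2, hq3⟩ := hX0 (fun _ => X) (fun _ => hX) B (by
    rw [Finset.prod_const, Finset.card_univ, Fintype.card_fin]
    exact hB)
  refine ⟨c, fun s i l => q s (i, l), hc, ?_, ?_, ?_⟩
  · intro s i l
    exact (hq1 s (i, l) (Finset.mem_univ _)).1
  · rintro ⟨s, i, l⟩ ⟨s', i', l'⟩ h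
    have := hq2 s s' (i, l) (i', l') (Finset.mem_univ _) (Finset.mem_univ _) h
    obtain ⟨h1, h2⟩ := this
    rw [h1]
    rw [Prod.mk.injEq] at h2
    rw [h2.1, h2.2]
  · intro W
    have h1 := hq3 (Finset.univ.filter (fun p : Fin j × Fin k => p.2 ∈ W p.1))
    have h2 : (fun i => c i * ∏ l, q (decide (l ∈ W i)) (i, l)) =
        (fun i => c i * ∏ p ∈ (Finset.univ : Finset (Fin j × Fin k)).filter (fun p => p.1 = i),
          q (decide (p ∈ Finset.univ.filter (fun p : Fin j × Fin k => p.2 ∈ W p.1))) p) := by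
      funext i
      congr 1
      rw [Finset.prod_filter, Fintype.prod_prod_type]
      rw [Finset.prod_eq_single i]
      · refine Finset.prod_congr rfl fun l _ => ?_
        simp
      · intro i' _ hi'
        refine Finset.prod_eq_one fun l _ => ?_
        rw [if_neg hi']
      · intro h
        exact absurd (Finset.mem_univ i) h
    show B (fun i => c i * ∏ l, q (decide (l ∈ W i)) (i, l))
    rw [h2]
    exact h1

end Pool.Agent.SMQ
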