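import Pool.Agent.Lib.MP_452a87_nt.SpecE

/-!
# 452a87 E/EOn: one step in the box
-/

set_option autoImplicit false

namespace Pool.Agent.SMQ

open Finset

namespace EOnAux

open Classical in
theorem ncard_box (Ω : Type) [Fintype Ω] (M : ℕ) (R : ℕ → Ω → Prop) :
    (Set.ncard {p : ℕ × Ω | 1 ≤ p.1 ∧ p.1 ≤ M ∧ R p.1 p.2} : ℝ) =
      ∑ n ∈ Finset.Icc 1 M, ∑ ω : Ω, (if R n ω then (1 : ℝ) else 0) := by
  have h : {p : ℕ × Ω | 1 ≤ p.1 ∧ p.1 ≤ M ∧ R p.1 p.2} =
      ((((Finset.Icc 1 M) ×ˢ (Finset.univ : Finset Ω)).filter (fun p => R p.1 p.2) :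
        Finset (ℕ × Ω)) : Set (ℕ × Ω)) := by
    ext p
    simp [and_assoc]
  rw [h, Set.ncard_coe_finset, Finset.card_filter, Finset.sum_product]
  push_cast
  rfl

open Classical in
theorem sum_dvd (w : ℕ → ℝ) (X q : ℕ) (hq : 0 < q) :
    ∑ n ∈ Finset.Icc 1 X, (if q ∣ n then w n else 0) = ∑ n ∈ Finset.Icc 1 (X / q), w (q * n) := by
  rw [← Finset.sum_filter]
  have himg : (Finset.Icc 1 X).filter (fun n => q ∣ n) =
      (Finset.Icc 1 (X / q)).image (fun n => q * n) := by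
    ext n
    rw [Finset.mem_filter, Finset.mem_Icc, Finset.mem_image]
    constructor
    · rintro ⟨⟨h1, h2⟩, m, rfl⟩
      refine ⟨m, ?_, rfl⟩
      rw [Finset.mem_Icc, Nat.le_div_iff_mul_le hq]
      refine ⟨?_, by rw [mul_comm]; exact h2⟩
      rcases Nat.eq_zero_or_pos m with h | h
      · rw [h] at h1
        omega
      · exact h
    · rintro ⟨m, hm, rfl⟩
      rw [Finset.mem_Icc, Nat.le_div_iff_mul_le hq] at hm
      refine ⟨⟨Nat.mul_pos hq hm.1, by rw [mul_comm]; exact hm.2⟩, ⟨m, rfl⟩⟩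
  rw [himg, Finset.sum_image]
  intro a _ b _ hab
  exact Nat.eq_of_mul_eq_mul_left hq hab

open Classical in
theorem sieve (hSv : S_ESv) (Ps : Finset ℕ) (hP : ∀ q ∈ Ps, q.Prime) (X : ℕ) (w : ℕ → ℝ) (W : ℝ)
    (hw0 : ∀ n, 0 ≤ w n) (hw : ∀ n, w n ≤ W) :
    ∑ n ∈ Finset.Icc 1 X, w n ≤
      W * (X * Real.exp (-∑ q ∈ Ps, (1 : ℝ) / q) + ((∏ q ∈ Ps, q : ℕ) : ℝ)) +
        ∑ q ∈ Ps, ∑ n ∈ Finset.Icc 1 (X / q), w (q * n) := by
  have hW : 0 ≤ W := (hw0 0).trans (hw 0)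
  have h1 : ∀ n ∈ Finset.Icc 1 X, w n ≤ (if ∀ q ∈ Ps, ¬ q ∣ n then W else 0) +
      ∑ q ∈ Ps, (if q ∣ n then w n else 0) := by
    intro n _
    have hnn : ∀ q ∈ Ps, (0 : ℝ) ≤ (if q ∣ n then w n else 0) := by
      intro q _
      split_ifs
      · exact hw0 n
      · exact le_refl 0
    by_cases h : ∀ q ∈ Ps, ¬ q ∣ n
    · rw [if_pos h]
      have := Finset.sum_nonneg hnn
      linarith [hw n]
    · rw [if_neg h, zero_add]
      push Not at h
      obtain ⟨q, hq, hqn⟩ := h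
      have := Finset.single_le_sum hnn hq
      rw [if_pos hqn] at this
      exact this
  refine (Finset.sum_le_sum h1).trans ?_
  rw [Finset.sum_add_distrib]
  refine add_le_add ?_ ?_
  · rw [← Finset.sum_filter, Finset.sum_const, nsmul_eq_mul, mul_comm]
    exact mul_le_mul_of_nonneg_left (hSv Ps hP X) hW
  · rw [Finset.sum_comm]
    refine Finset.sum_le_sum fun q hq => ?_
    rw [sum_dvd w X q (hP q hq).pos]

open Classical in
theorem pair (Ω : Type) [Fintype Ω] (B : ℕ → Ω → Prop) (P : Finset ℕ) (M : ℕ) (β : ℝ) (hβ : 0 < β)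
    (hM : 0 < M) (hΩ : 0 < Fintype.card Ω) (hP : 2 / β ^ 2 < P.card)
    (h : β * M * Fintype.card Ω * P.card ≤
      ∑ q ∈ P, ∑ n ∈ Finset.Icc 1 M, ∑ ω : Ω, (if B (q * n) ω then (1 : ℝ) else 0)) :
    ∃ q ∈ P, ∃ q' ∈ P, q ≠ q' ∧ β ^ 2 / 2 * M * Fintype.card Ω ≤
      (Set.ncard {p : ℕ × Ω | 1 ≤ p.1 ∧ p.1 ≤ M ∧ B (q * p.1) p.2 ∧ B (q' * p.1) p.2} : ℝ) := by
  set f : ℕ → ℕ × Ω → ℝ := fun q p => if B (q * p.1) p.2 then (1 : ℝ) else 0 with hf
  set S : Finset (ℕ × Ω) := (Finset.Icc 1 M) ×ˢ (Finset.univ : Finset Ω) with hS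
  have hScard : (S.card : ℝ) = M * Fintype.card Ω := by
    rw [hS, Finset.card_product, Nat.card_Icc, Finset.card_univ]
    push_cast
    simp
  have hVeq : ∀ q q' : ℕ, (Set.ncard {p : ℕ × Ω | 1 ≤ p.1 ∧ p.1 ≤ M ∧ B (q * p.1) p.2 ∧ B (q' * p.1) p.2} : ℝ) =
      ∑ p ∈ S, f q p * f q' p := by
    intro q q'
    rw [ncard_box Ω M (fun n ω => B (q * n) ω ∧ B (q' * n) ω), hS, Finset.sum_product]
    refine Finset.sum_congr rfl fun n _ => Finset.sum_congr rfl fun ω _ => ?_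
    simp only [hf]
    by_cases h1 : B (q * n) ω <;> by_cases h2 : B (q' * n) ω <;> simp [h1, h2]
  by_contra hcon
  push Not at hcon
  have hN : (0 : ℝ) < M * Fintype.card Ω := by
    have h1 : (0 : ℝ) < M := by exact_mod_cast hM
    have h2 : (0 : ℝ) < Fintype.card Ω := by exact_mod_cast hΩ
    positivity
  have hsum : ∑ q ∈ P, ∑ n ∈ Finset.Icc 1 M, ∑ ω : Ω, (if B (q * n) ω then (1 : ℝ) else 0) =
      ∑ p ∈ S, ∑ q ∈ P, f q p := by
    rw [Finset.sum_comm (s := S)]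
    refine Finset.sum_congr rfl fun q _ => ?_
    rw [hS, Finset.sum_product]
  rw [hsum] at h
  have hCS : (∑ p ∈ S, ∑ q ∈ P, f q p) ^ 2 ≤ (S.card : ℝ) * ∑ p ∈ S, (∑ q ∈ P, f q p) ^ 2 :=
    sq_sum_le_card_mul_sum_sq
  have hexp : ∑ p ∈ S, (∑ q ∈ P, f q p) ^ 2 = ∑ q ∈ P, ∑ q' ∈ P, ∑ p ∈ S, f q p * f q' p := by
    have h1 : ∀ p ∈ S, (∑ q ∈ P, f q p) ^ 2 = ∑ q ∈ P, ∑ q' ∈ P, f q p * f q' p := by
      intro p _
      rw [sq, Finset.sum_mul_sum]
    rw [Finset.sum_congr rfl h1, Finset.sum_comm]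
    refine Finset.sum_congr rfl fun q _ => ?_
    rw [Finset.sum_comm]
  have hf01 : ∀ q p, 0 ≤ f q p ∧ f q p ≤ 1 := by
    intro q p
    simp only [hf]
    split_ifs <;> norm_num
  have hub : ∑ q ∈ P, ∑ q' ∈ P, ∑ p ∈ S, f q p * f q' p ≤
      ∑ q ∈ P, ∑ q' ∈ P, ((if q = q' then (M : ℝ) * Fintype.card Ω else 0) + β ^ 2 / 2 * M * Fintype.card Ω) := by
    refine Finset.sum_le_sum fun q hq => Finset.sum_le_sum fun q' hq' => ?_
    by_cases hqq : q = q'
    · rw [if_pos hqq]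
      have h1 : ∑ p ∈ S, f q p * f q' p ≤ ∑ p ∈ S, (1 : ℝ) := by
        refine Finset.sum_le_sum fun p _ => ?_
        have h2 := hf01 q p
        have h3 := hf01 q' p
        nlinarith [h2.1, h2.2, h3.1, h3.2]
      rw [Finset.sum_const, nsmul_eq_mul, mul_one, hScard] at h1
      have h4 : 0 ≤ β ^ 2 / 2 * M * Fintype.card Ω := by positivity
      linarith
    · rw [if_neg hqq, zero_add, ← hVeq]
      exact (hcon q hq q' hq' hqq).le
  have hub2 : ∑ q ∈ P, ∑ q' ∈ P, ((if q = q' then (M : ℝ) * Fintype.card Ω else 0) + β ^ 2 / 2 * M * Fintype.card Ω) =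
      P.card * (M * Fintype.card Ω) + P.card * (P.card * (β ^ 2 / 2 * M * Fintype.card Ω)) := by
    have h1 : ∀ q ∈ P, ∑ q' ∈ P, ((if q = q' then (M : ℝ) * Fintype.card Ω else 0) + β ^ 2 / 2 * M * Fintype.card Ω) =
        M * Fintype.card Ω + P.card * (β ^ 2 / 2 * M * Fintype.card Ω) := by
      intro q hq
      rw [Finset.sum_add_distrib, Finset.sum_ite_eq, if_pos hq, Finset.sum_const, nsmul_eq_mul]
    rw [Finset.sum_congr rfl h1, Finset.sum_const, nsmul_eq_mul]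
    ring
  rw [hexp, hScard] at hCS
  rw [hub2] at hub
  set N : ℝ := M * Fintype.card Ω with hNdef
  set K : ℝ := (P.card : ℝ) with hK
  have hK0 : 0 < K := lt_trans (by positivity) hP
  have h5 : (β * N * K) ^ 2 ≤ N * (K * N + K * (K * (β ^ 2 / 2 * N))) := by
    have h6 : (β * N * K) ^ 2 ≤ (∑ p ∈ S, ∑ q ∈ P, f q p) ^ 2 := by
      refine pow_le_pow_left₀ (by positivity) ?_ 2
      calc β * N * K = β * M * Fintype.card Ω * K := by rw [hNdef]; ring
        _ ≤ _ := h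
    have h7 : N * ∑ q ∈ P, ∑ q' ∈ P, ∑ p ∈ S, f q p * f q' p ≤
        N * (K * N + K * (K * (β ^ 2 / 2 * N))) := by
      refine mul_le_mul_of_nonneg_left ?_ hN.le
      calc _ ≤ K * N + K * (K * (β ^ 2 / 2 * M * Fintype.card Ω)) := hub
        _ = _ := by rw [hNdef]; ring
    linarith
  have h8 : β ^ 2 / 2 * K ≤ 1 := by
    have h9 : N ^ 2 * K * (β ^ 2 / 2 * K) ≤ N ^ 2 * K * 1 := by nlinarith [h5]
    exact le_of_mul_le_mul_left h9 (by positivity)
  have h10 : 2 < K * β ^ 2 := (div_lt_iff₀ (by positivity)).mp hP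
  linarith

end EOnAux

open EOnAux

theorem pEOn (hPr : S_EPr) (hSv : S_ESv) : S_EOn := by
  intro δ Y0 hδ hδ1
  classical
  set σ0 : ℝ := Real.log (4 / δ) with hσ0
  have h4δ : (1 : ℝ) < 4 / δ := by
    rw [lt_div_iff₀ hδ]
    linarith
  have hσpos : 0 < σ0 := Real.log_pos h4δ
  set β : ℝ := δ / (8 * (σ0 + 2)) with hβdef
  have hβ : 0 < β := by positivity
  have hβ1 : β ≤ 1 / 16 := by
    rw [hβdef, div_le_iff₀ (by positivity)]
    linarith
  have hβσ : β * (8 * (σ0 + 2)) = δ := by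
    rw [hβdef]
    field_simp
  set K0 : ℕ := ⌈2 / β ^ 2⌉₊ + 1 with hK0
  obtain ⟨r, z, P, hzP, hdis, hs1, hs2⟩ := hPr (β / 2) σ0 K0 Y0 (by positivity) (by linarith) hσpos.le
  set Ps : Finset ℕ := Finset.univ.biUnion P with hPs
  have hPsprime : ∀ q ∈ Ps, q.Prime := by
    intro q hq
    rw [hPs, Finset.mem_biUnion] at hq
    obtain ⟨i, _, hi⟩ := hq
    exact ((hzP i).2.2 q hi).1
  have hPsum : ∀ g : ℕ → ℝ, ∑ q ∈ Ps, g q = ∑ i, ∑ q ∈ P i, g q := by
    intro g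
    rw [hPs, Finset.sum_biUnion]
    intro i _ i' _ h
    exact hdis i i' h
  set Q : ℕ := ∏ q ∈ Ps, q with hQ
  set Y : ℕ := ∑ i, ⌈8 * z i + 8⌉₊ + ∑ q ∈ Ps, q + 1 with hY
  set X1 : ℕ := ⌈4 * (Q : ℝ) / δ⌉₊ + ∑ i, ⌈2 * z i / β⌉₊ + 1 with hX1
  refine ⟨Y, X1, β ^ 2 / 2, by omega, by positivity, by nlinarith, ?_⟩
  intro X hX Ω _ B hB hΩ
  have hΩr : (0 : ℝ) < Fintype.card Ω := by exact_mod_cast hΩ
  have hXpos : 0 < X := by omega
  have hXr : (0 : ℝ) < X := by exact_mod_cast hXpos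
  have hXQ : 4 * (Q : ℝ) / δ ≤ X := by
    have h1 : 4 * (Q : ℝ) / δ ≤ (⌈4 * (Q : ℝ) / δ⌉₊ : ℝ) := Nat.le_ceil _
    have h2 : ((⌈4 * (Q : ℝ) / δ⌉₊ : ℕ) : ℝ) ≤ X := by
      have : ⌈4 * (Q : ℝ) / δ⌉₊ ≤ X := by omega
      exact_mod_cast this
    linarith
  have hXz : ∀ i, 2 * z i / β ≤ X := by
    intro i
    have h1 : 2 * z i / β ≤ (⌈2 * z i / β⌉₊ : ℝ) := Nat.le_ceil _
    have h2 : ⌈2 * z i / β⌉₊ ≤ ∑ i, ⌈2 * z i / β⌉₊ :=
      Finset.single_le_sum (f := fun i => ⌈2 * z i / β⌉₊) (fun _ _ => Nat.zero_le _) (Finset.mem_univ i)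
    have h3 : ((⌈2 * z i / β⌉₊ : ℕ) : ℝ) ≤ X := by
      have : ⌈2 * z i / β⌉₊ ≤ X := by omega
      exact_mod_cast this
    linarith
  have hYz : ∀ i, 8 * z i + 8 ≤ (Y : ℝ) := by
    intro i
    have h1 : 8 * z i + 8 ≤ (⌈8 * z i + 8⌉₊ : ℝ) := Nat.le_ceil _
    have h2 : ⌈8 * z i + 8⌉₊ ≤ ∑ i, ⌈8 * z i + 8⌉₊ :=
      Finset.single_le_sum (f := fun i => ⌈8 * z i + 8⌉₊) (fun _ _ => Nat.zero_le _) (Finset.mem_univ i)
    have h3 : ((⌈8 * z i + 8⌉₊ : ℕ) : ℝ) ≤ Y := by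
      have : ⌈8 * z i + 8⌉₊ ≤ Y := by omega
      exact_mod_cast this
    linarith
  have hYq : ∀ q ∈ Ps, q ≤ Y := by
    intro q hq
    have h2 : q ≤ ∑ q ∈ Ps, q :=
      Finset.single_le_sum (f := fun q => q) (fun _ _ => Nat.zero_le _) hq
    omega
  set w : ℕ → ℝ := fun n => ∑ ω : Ω, (if B n ω then (1 : ℝ) else 0) with hw
  have hw0 : ∀ n, 0 ≤ w n := by
    intro n
    refine Finset.sum_nonneg fun ω _ => ?_
    split_ifs <;> norm_num
  have hw1 : ∀ n, w n ≤ Fintype.card Ω := by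
    intro n
    have : w n ≤ ∑ ω : Ω, (1 : ℝ) := by
      refine Finset.sum_le_sum fun ω _ => ?_
      split_ifs <;> norm_num
    simpa using this
  rw [ncard_box Ω X B] at hB
  have hsv := sieve hSv Ps hPsprime X w (Fintype.card Ω) hw0 hw1
  have hsig : ∑ q ∈ Ps, (1 : ℝ) / q = ∑ i, ∑ q ∈ P i, (1 : ℝ) / q := hPsum _
  set σ : ℝ := ∑ i, ∑ q ∈ P i, (1 : ℝ) / q with hσ
  rw [hsig] at hsv
  have hexp : Real.exp (-σ) ≤ δ / 4 := by
    have h1 : Real.exp (-σ) ≤ Real.exp (-σ0) := Real.exp_le_exp.mpr (by linarith)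
    have h2 : Real.exp (-σ0) = δ / 4 := by
      rw [Real.exp_neg, hσ0, Real.exp_log (by positivity), inv_div]
    linarith
  have hQX : (Q : ℝ) ≤ δ / 4 * X := by
    rw [div_le_iff₀ hδ] at hXQ
    linarith
  have hbig : δ / 2 * X * Fintype.card Ω ≤ ∑ q ∈ Ps, ∑ n ∈ Finset.Icc 1 (X / q), w (q * n) := by
    have h1 : (Fintype.card Ω : ℝ) * (X * Real.exp (-σ) + (Q : ℝ)) ≤
        (Fintype.card Ω : ℝ) * (X * (δ / 4) + δ / 4 * X) := by
      refine mul_le_mul_of_nonneg_left ?_ hΩr.le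
      exact add_le_add (mul_le_mul_of_nonneg_left hexp hXr.le) hQX
    have h2 : ∑ n ∈ Finset.Icc 1 X, w n = ∑ n ∈ Finset.Icc 1 X, ∑ ω : Ω, (if B n ω then (1 : ℝ) else 0) := rfl
    rw [h2] at hsv
    nlinarith [hsv, hB, h1]
  rw [hPsum] at hbig
  have hσσ : 0 < σ := lt_of_lt_of_le hσpos hs1
  -- pigeonhole
  have hne : (Finset.univ : Finset (Fin r)).Nonempty := by
    by_contra h
    rw [Finset.not_nonempty_iff_eq_empty] at h
    rw [hσ, h, Finset.sum_empty] at hσσ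
    exact lt_irrefl _ hσσ
  have hpig : ∑ i : Fin r, (δ / 2 * X * Fintype.card Ω) * ((∑ q ∈ P i, (1 : ℝ) / q) / σ) ≤
      ∑ i : Fin r, ∑ q ∈ P i, ∑ n ∈ Finset.Icc 1 (X / q), w (q * n) := by
    rw [← Finset.mul_sum, ← Finset.sum_div, ← hσ, div_self hσσ.ne', mul_one]
    exact hbig
  obtain ⟨i, _, hi⟩ := Finset.exists_le_of_sum_le hne hpig
  obtain ⟨hz1, hcard, hPi⟩ := hzP i
  have hz0 : (0 : ℝ) < z i := by linarith
  set K : ℝ := ((P i).card : ℝ) with hK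
  have hσi : K / (2 * z i) ≤ ∑ q ∈ P i, (1 : ℝ) / q := by
    have h1 : ∀ q ∈ P i, 1 / (2 * z i) ≤ (1 : ℝ) / q := by
      intro q hq
      have h2 := hPi q hq
      have h3 : (0 : ℝ) < q := by exact_mod_cast h2.1.pos
      refine one_div_le_one_div_of_le h3 ?_
      have h4 := h2.2.2.2
      have h5 : (1 + β / 2) * z i ≤ 2 * z i := mul_le_mul_of_nonneg_right (by linarith) hz0.le
      linarith
    have h6 := Finset.sum_le_sum h1
    rw [Finset.sum_const, nsmul_eq_mul, ← hK] at h6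
    calc K / (2 * z i) = K * (1 / (2 * z i)) := by ring
      _ ≤ _ := h6
  have hK0' : 0 ≤ K := by positivity
  -- the main inequality
  have hmain : 2 * β * X * Fintype.card Ω * K / z i ≤
      ∑ q ∈ P i, ∑ n ∈ Finset.Icc 1 (X / q), w (q * n) := by
    refine le_trans ?_ hi
    have h1 : K / (2 * z i) / (σ0 + 2) ≤ (∑ q ∈ P i, (1 : ℝ) / q) / σ :=
      div_le_div₀ (Finset.sum_nonneg fun q _ => by positivity) hσi hσσ hs2
    have h2 : (δ / 2 * X * Fintype.card Ω) * (K / (2 * z i) / (σ0 + 2)) ≤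
        (δ / 2 * X * Fintype.card Ω) * ((∑ q ∈ P i, (1 : ℝ) / q) / σ) :=
      mul_le_mul_of_nonneg_left h1 (by positivity)
    refine le_trans (le_of_eq ?_) h2
    rw [← hβσ]
    field_simp
    ring
  -- the number M
  set M : ℕ := ⌊(X : ℝ) / ((1 + β / 2) * z i)⌋₊ with hM
  have hden : (0 : ℝ) < (1 + β / 2) * z i := by positivity
  have hM1 : (M : ℝ) ≤ (X : ℝ) / ((1 + β / 2) * z i) := Nat.floor_le (by positivity)
  have hM2 : (X : ℝ) / ((1 + β / 2) * z i) < M + 1 := Nat.lt_floor_add_one _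
  have hXzi : 2 * z i ≤ X * β := by
    have := hXz i
    rwa [div_le_iff₀ hβ] at this
  have hM3 : (M : ℝ) ≤ X / z i := by
    refine hM1.trans ?_
    refine div_le_div_of_nonneg_left hXr.le hz0 ?_
    nlinarith
  have hX32 : 32 * z i ≤ X := by nlinarith
  have hM4 : (X : ℝ) / (4 * z i) ≤ M := by
    have h1 : (X : ℝ) / (2 * z i) ≤ X / ((1 + β / 2) * z i) := by
      refine div_le_div_of_nonneg_left hXr.le hden ?_
      exact mul_le_mul_of_nonneg_right (by linarith) hz0.le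
    have h2 : (X : ℝ) / (2 * z i) = 2 * (X / (4 * z i)) := by
      field_simp
      ring
    have h3 : 1 ≤ (X : ℝ) / (4 * z i) := by
      rw [le_div_iff₀ (by positivity)]
      linarith
    linarith
  have hMpos : 0 < M := by
    have h3 : 1 ≤ (X : ℝ) / (4 * z i) := by
      rw [le_div_iff₀ (by positivity)]
      linarith
    have : (0 : ℝ) < M := by linarith
    exact_mod_cast this
  have hqM : ∀ q ∈ P i, q * M ≤ X := by
    intro q hq
    have h1 := (hPi q hq).2.2.2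
    have h2 : (q : ℝ) * M ≤ X := by
      calc (q : ℝ) * M ≤ ((1 + β / 2) * z i) * ((X : ℝ) / ((1 + β / 2) * z i)) :=
            mul_le_mul h1 hM1 (by positivity) hden.le
        _ = X := by field_simp
    exact_mod_cast h2
  have hYM : X ≤ Y * M := by
    have h1 : (X : ℝ) ≤ Y * M := by
      calc (X : ℝ) = (4 * z i) * (X / (4 * z i)) := by field_simp
        _ ≤ (8 * z i + 8) * M := by
            refine mul_le_mul (by linarith) hM4 (by positivity) (by positivity)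
        _ ≤ Y * M := mul_le_mul_of_nonneg_right (hYz i) (by positivity)
    exact_mod_cast h1
  -- truncation
  have htr : ∀ q ∈ P i, ∑ n ∈ Finset.Icc 1 (X / q), w (q * n) ≤
      ∑ n ∈ Finset.Icc 1 M, w (q * n) + Fintype.card Ω * (β * X / z i) := by
    intro q hq
    have hqz := (hPi q hq).2.2.1
    have hqpos : (0 : ℝ) < q := by linarith
    have hsub : Finset.Icc 1 (X / q) ⊆ Finset.Icc 1 M ∪ Finset.Ioc M (X / q) := by
      intro n hn
      rw [Finset.mem_Icc] at hn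
      rw [Finset.mem_union, Finset.mem_Icc, Finset.mem_Ioc]
      omega
    have hdj : Disjoint (Finset.Icc 1 M) (Finset.Ioc M (X / q)) := by
      rw [Finset.disjoint_left]
      intro n hn hn'
      rw [Finset.mem_Icc] at hn
      rw [Finset.mem_Ioc] at hn'
      omega
    have h1 : ∑ n ∈ Finset.Icc 1 (X / q), w (q * n) ≤
        ∑ n ∈ Finset.Icc 1 M ∪ Finset.Ioc M (X / q), w (q * n) :=
      Finset.sum_le_sum_of_subset_of_nonneg hsub fun n _ _ => hw0 _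
    rw [Finset.sum_union hdj] at h1
    have h2 : ∑ n ∈ Finset.Ioc M (X / q), w (q * n) ≤ ∑ n ∈ Finset.Ioc M (X / q), (Fintype.card Ω : ℝ) :=
      Finset.sum_le_sum fun n _ => hw1 _
    rw [Finset.sum_const, nsmul_eq_mul, Nat.card_Ioc] at h2
    have h3 : ((X / q - M : ℕ) : ℝ) ≤ β * X / z i := by
      rcases le_total (X / q) M with hle | hle
      · rw [Nat.sub_eq_zero_of_le hle, Nat.cast_zero]
        positivity
      · rw [Nat.cast_sub hle]
        have h4 : ((X / q : ℕ) : ℝ) ≤ X / q := Nat.cast_div_le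
        have h5 : (X : ℝ) / q ≤ X / z i := div_le_div_of_nonneg_left hXr.le hz0 hqz
        have h6 : (X : ℝ) / z i - (X : ℝ) / ((1 + β / 2) * z i) ≤ β / 2 * (X / z i) := by
          have h7 : (X : ℝ) / ((1 + β / 2) * z i) = (X / z i) / (1 + β / 2) :=
            div_mul_eq_div_div_swap _ _ _
          rw [h7]
          have h8 : (X / z i) * (1 - β / 2) ≤ (X / z i) / (1 + β / 2) := by
            rw [le_div_iff₀ (by positivity)]
            have h9 : (0 : ℝ) ≤ X / z i := by positivity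
            nlinarith [mul_nonneg h9 (sq_nonneg β)]
          linarith
        have h10 : 1 ≤ β / 2 * (X / z i) := by
          have : β / 2 * (X / z i) = (X * β) / (2 * z i) := by
            field_simp
          rw [this, le_div_iff₀ (by positivity)]
          linarith
        have h11 : β * X / z i = β / 2 * (X / z i) + β / 2 * (X / z i) := by ring
        rw [h11]
        linarith
    have h12 : ((X / q - M : ℕ) : ℝ) * Fintype.card Ω ≤ Fintype.card Ω * (β * X / z i) := by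
      rw [mul_comm]
      exact mul_le_mul_of_nonneg_left h3 hΩr.le
    linarith
  have hlow : β * M * Fintype.card Ω * K ≤ ∑ q ∈ P i, ∑ n ∈ Finset.Icc 1 M, w (q * n) := by
    have h1 := Finset.sum_le_sum htr
    rw [Finset.sum_add_distrib, Finset.sum_const, nsmul_eq_mul, ← hK] at h1
    have h2 : β * X * Fintype.card Ω * K / z i ≤ ∑ q ∈ P i, ∑ n ∈ Finset.Icc 1 M, w (q * n) := by
      have h3 : 2 * β * X * Fintype.card Ω * K / z i =
          β * X * Fintype.card Ω * K / z i + K * (Fintype.card Ω * (β * X / z i)) := by ring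
      linarith
    refine le_trans ?_ h2
    have h4 : β * X * Fintype.card Ω * K / z i = β * (X / z i) * Fintype.card Ω * K := by ring
    rw [h4]
    have h5 : β * M ≤ β * (X / z i) := mul_le_mul_of_nonneg_left hM3 hβ.le
    exact mul_le_mul_of_nonneg_right (mul_le_mul_of_nonneg_right h5 hΩr.le) hK0'
  have hKbig : 2 / β ^ 2 < ((P i).card : ℝ) := by
    have h1 : 2 / β ^ 2 ≤ (⌈2 / β ^ 2⌉₊ : ℝ) := Nat.le_ceil _
    have h2 : (K0 : ℝ) ≤ (P i).card := by exact_mod_cast hcard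
    rw [hK0] at h2
    push_cast at h2
    linarith
  obtain ⟨q, hq, q', hq', hne', hfin⟩ := pair Ω B (P i) M β hβ hMpos hΩ hKbig hlow
  have hmem : ∀ q ∈ P i, q ∈ Ps := fun q hq => by
    rw [hPs, Finset.mem_biUnion]
    exact ⟨i, Finset.mem_univ i, hq⟩
  exact ⟨q, q', M, (hPi q hq).1, (hPi q' hq').1, hne', (hPi q hq).2.1, (hPi q' hq').2.1,
    hYq q (hmem q hq), hYq q' (hmem q' hq'), hYM, hqM q hq, hqM q' hq', hfin⟩

end Pool.Agent.SMQ
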