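import Pool.Agent.Lib.MP_452a87_nt.SpecE

/-!
# 452a87 E/EPr: clusters of primes
-/

set_option autoImplicit false

namespace Pool.Agent.SMQ

open Finset

namespace EPrAux

/-- The primes larger than `Y0` in the interval `[y^i, y^(i+1))`. -/
noncomputable def Pc (y : ℝ) (Y0 i : ℕ) : Finset ℕ :=
  (Finset.Ico ⌈y ^ i⌉₊ ⌈y ^ (i + 1)⌉₊).filter (fun q => q.Prime ∧ Y0 < q)

theorem mem_Pc {y : ℝ} {Y0 i q : ℕ} :
    q ∈ Pc y Y0 i ↔ (y ^ i ≤ (q : ℝ) ∧ (q : ℝ) < y ^ (i + 1)) ∧ q.Prime ∧ Y0 < q := by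
  unfold Pc
  rw [Finset.mem_filter, Finset.mem_Ico, Nat.ceil_le, Nat.lt_ceil]

theorem Pc_disj {y : ℝ} (hy : 1 < y) (Y0 : ℕ) {i i' : ℕ} (h : i ≠ i') :
    Disjoint (Pc y Y0 i) (Pc y Y0 i') := by
  rw [Finset.disjoint_left]
  intro q hq hq'
  rw [mem_Pc] at hq hq'
  rcases lt_or_gt_of_ne h with h1 | h1
  · have h2 : y ^ (i + 1) ≤ y ^ i' := pow_le_pow_right₀ hy.le h1
    linarith [hq.1.2, hq'.1.1]
  · have h2 : y ^ (i' + 1) ≤ y ^ i := pow_le_pow_right₀ hy.le h1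
    linarith [hq.1.1, hq'.1.2]

/-- The sum of the reciprocals. -/
noncomputable def sc (y : ℝ) (Y0 i : ℕ) : ℝ := ∑ q ∈ Pc y Y0 i, (1 : ℝ) / q

theorem sc_nonneg (y : ℝ) (Y0 i : ℕ) : 0 ≤ sc y Y0 i :=
  Finset.sum_nonneg fun q _ => by positivity

theorem sc_le_card {y : ℝ} (hy : 1 < y) (Y0 i : ℕ) :
    sc y Y0 i ≤ ((Pc y Y0 i).card : ℝ) * (1 / y ^ i) := by
  unfold sc
  have h1 : ∀ q ∈ Pc y Y0 i, (1 : ℝ) / q ≤ 1 / y ^ i := by
    intro q hq
    rw [mem_Pc] at hq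
    have hp : (0 : ℝ) < y ^ i := by positivity
    exact one_div_le_one_div_of_le hp hq.1.1
  calc ∑ q ∈ Pc y Y0 i, (1 : ℝ) / q ≤ ∑ q ∈ Pc y Y0 i, 1 / y ^ i := Finset.sum_le_sum h1
    _ = _ := by rw [Finset.sum_const, nsmul_eq_mul]

theorem sc_le_two {y : ℝ} (hy : 1 < y) (hy2 : y ≤ 2) (Y0 i : ℕ) : sc y Y0 i ≤ 2 := by
  have hp : (1 : ℝ) ≤ y ^ i := one_le_pow₀ hy.le
  have hlt : y ^ i ≤ y ^ (i + 1) := pow_le_pow_right₀ hy.le (Nat.le_succ i)
  have hc : ((Pc y Y0 i).card : ℝ) ≤ y ^ (i + 1) + 1 - y ^ i := by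
    have h1 : (Pc y Y0 i).card ≤ ⌈y ^ (i + 1)⌉₊ - ⌈y ^ i⌉₊ := by
      have := Finset.card_filter_le (Finset.Ico ⌈y ^ i⌉₊ ⌈y ^ (i + 1)⌉₊) (fun q => q.Prime ∧ Y0 < q)
      rw [Nat.card_Ico] at this
      exact this
    have h2 : ((⌈y ^ (i + 1)⌉₊ - ⌈y ^ i⌉₊ : ℕ) : ℝ) = (⌈y ^ (i + 1)⌉₊ : ℝ) - (⌈y ^ i⌉₊ : ℝ) :=
      Nat.cast_sub (Nat.ceil_le_ceil hlt)
    have h3 : (⌈y ^ (i + 1)⌉₊ : ℝ) < y ^ (i + 1) + 1 := Nat.ceil_lt_add_one (by positivity)
    have h4 : y ^ i ≤ (⌈y ^ i⌉₊ : ℝ) := Nat.le_ceil _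
    have h5 : ((Pc y Y0 i).card : ℝ) ≤ ((⌈y ^ (i + 1)⌉₊ - ⌈y ^ i⌉₊ : ℕ) : ℝ) := by exact_mod_cast h1
    linarith
  have h6 : ((Pc y Y0 i).card : ℝ) ≤ 2 * y ^ i := by
    have : y ^ (i + 1) = y ^ i * y := pow_succ y i
    nlinarith
  have h7 := sc_le_card hy Y0 i
  have h8 : ((Pc y Y0 i).card : ℝ) * (1 / y ^ i) ≤ 2 * y ^ i * (1 / y ^ i) :=
    mul_le_mul_of_nonneg_right h6 (by positivity)
  have h9 : 2 * y ^ i * (1 / y ^ i) = 2 := by field_simp
  linarith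

open Classical in
/-- The sum of the reciprocals, if the cluster is rich. -/
noncomputable def sr (y : ℝ) (Y0 K0 i : ℕ) : ℝ := if K0 ≤ (Pc y Y0 i).card then sc y Y0 i else 0

theorem sr_nonneg (y : ℝ) (Y0 K0 i : ℕ) : 0 ≤ sr y Y0 K0 i := by
  unfold sr
  split_ifs
  · exact sc_nonneg y Y0 i
  · exact le_refl 0

theorem sr_le_two {y : ℝ} (hy : 1 < y) (hy2 : y ≤ 2) (Y0 K0 i : ℕ) : sr y Y0 K0 i ≤ 2 := by
  unfold sr
  split_ifs
  · exact sc_le_two hy hy2 Y0 i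
  · norm_num

theorem sc_le_sr {y : ℝ} (hy : 1 < y) (Y0 K0 i : ℕ) :
    sc y Y0 i ≤ sr y Y0 K0 i + (K0 : ℝ) * (1 / y) ^ i := by
  unfold sr
  have hp : (0 : ℝ) ≤ (K0 : ℝ) * (1 / y) ^ i := by positivity
  split_ifs with h
  · linarith
  · have h1 := sc_le_card hy Y0 i
    have h2 : ((Pc y Y0 i).card : ℝ) ≤ K0 := by
      push Not at h
      exact_mod_cast h.le
    have h3 : ((Pc y Y0 i).card : ℝ) * (1 / y ^ i) ≤ (K0 : ℝ) * (1 / y ^ i) :=
      mul_le_mul_of_nonneg_right h2 (by positivity)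
    rw [one_div_pow]
    linarith

theorem not_bdd {y : ℝ} (hy : 1 < y) (Y0 K0 : ℕ) (C : ℝ) :
    ∃ n : ℕ, C ≤ ∑ i ∈ Finset.range n, sr y Y0 K0 i := by
  by_contra hcon
  push Not at hcon
  have hgeo : Summable (fun i : ℕ => (1 / y) ^ i) :=
    summable_geometric_of_lt_one (by positivity) (by rw [div_lt_one (by linarith)]; exact hy)
  apply not_summable_one_div_on_primes
  refine summable_of_sum_range_le (c := (Y0 + 1 : ℝ) + (C + K0 * ∑' i : ℕ, (1 / y) ^ i)) ?_ ?_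
  · intro n
    refine Set.indicator_nonneg ?_ n
    intro m _
    positivity
  · intro N
    have h1 : ∀ n ∈ Finset.range N, Set.indicator {p | Nat.Prime p} (fun n : ℕ => (1 : ℝ) / n) n
        ≤ (if n ≤ Y0 then (1 : ℝ) else 0) +
          (if n.Prime ∧ Y0 < n then (1 : ℝ) / n else 0) := by
      intro n _
      by_cases hp : n.Prime
      · have : Set.indicator {p | Nat.Prime p} (fun n : ℕ => (1 : ℝ) / n) n = 1 / n :=
          Set.indicator_of_mem (show n ∈ {p | Nat.Prime p} from hp) _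
        rw [this]
        by_cases hY : n ≤ Y0
        · rw [if_pos hY, if_neg (by omega)]
          have h1n : (1 : ℝ) ≤ n := by exact_mod_cast hp.one_lt.le
          rw [add_zero, div_le_one (by linarith)]
          exact h1n
        · rw [if_neg hY, if_pos ⟨hp, by omega⟩, zero_add]
      · have : Set.indicator {p | Nat.Prime p} (fun n : ℕ => (1 : ℝ) / n) n = 0 :=
          Set.indicator_of_notMem (show n ∉ {p | Nat.Prime p} from hp) _
        rw [this]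
        split_ifs <;> positivity
    refine (Finset.sum_le_sum h1).trans ?_
    rw [Finset.sum_add_distrib]
    refine add_le_add ?_ ?_
    · rw [← Finset.sum_filter, Finset.sum_const, nsmul_eq_mul, mul_one]
      have : ((Finset.range N).filter (fun n => n ≤ Y0)).card ≤ (Finset.range (Y0 + 1)).card := by
        refine Finset.card_le_card ?_
        intro n hn
        rw [Finset.mem_filter] at hn
        rw [Finset.mem_range]
        omega
      rw [Finset.card_range] at this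
      exact_mod_cast this
    · rw [← Finset.sum_filter]
      obtain ⟨M, hM⟩ := pow_unbounded_of_one_lt (N : ℝ) hy
      have hsub : (Finset.range N).filter (fun n => n.Prime ∧ Y0 < n) ⊆
          (Finset.range M).biUnion (Pc y Y0) := by
        intro n hn
        rw [Finset.mem_filter, Finset.mem_range] at hn
        obtain ⟨hnN, hp, hY⟩ := hn
        obtain ⟨i, hi1, hi2⟩ := exists_nat_pow_near (x := (n : ℝ)) (by exact_mod_cast hp.one_lt.le) hy
        rw [Finset.mem_biUnion]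
        refine ⟨i, ?_, ?_⟩
        · rw [Finset.mem_range]
          by_contra hiM
          push Not at hiM
          have h2 : y ^ M ≤ y ^ i := pow_le_pow_right₀ hy.le hiM
          have h3 : (n : ℝ) < N := by exact_mod_cast hnN
          linarith
        · rw [mem_Pc]
          exact ⟨⟨hi1, hi2⟩, hp, hY⟩
      have h2 : ∑ n ∈ (Finset.range N).filter (fun n => n.Prime ∧ Y0 < n), (1 : ℝ) / n ≤
          ∑ n ∈ (Finset.range M).biUnion (Pc y Y0), (1 : ℝ) / n :=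
        Finset.sum_le_sum_of_subset_of_nonneg hsub (fun n _ _ => by positivity)
      refine h2.trans ?_
      rw [Finset.sum_biUnion (fun i _ i' _ h => Pc_disj hy Y0 h)]
      have h3 : ∑ i ∈ Finset.range M, ∑ q ∈ Pc y Y0 i, (1 : ℝ) / q ≤
          ∑ i ∈ Finset.range M, (sr y Y0 K0 i + (K0 : ℝ) * (1 / y) ^ i) :=
        Finset.sum_le_sum fun i _ => sc_le_sr hy Y0 K0 i
      refine h3.trans ?_
      rw [Finset.sum_add_distrib, ← Finset.mul_sum]
      refine add_le_add (hcon M).le ?_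
      refine mul_le_mul_of_nonneg_left ?_ (by positivity)
      exact hgeo.sum_le_tsum _ (fun i _ => by positivity)

end EPrAux

open EPrAux

theorem pEPr : S_EPr := by
  intro η σ0 K0 Y0 hη hη1 hσ
  classical
  set y : ℝ := 1 + η with hydef
  have hy : 1 < y := by linarith
  have hy2 : y ≤ 2 := by linarith
  have hex := not_bdd hy Y0 K0 σ0
  have hn1 : σ0 ≤ ∑ i ∈ Finset.range (Nat.find hex), sr y Y0 K0 i := Nat.find_spec hex
  have hn2 : ∑ i ∈ Finset.range (Nat.find hex), sr y Y0 K0 i ≤ σ0 + 2 := by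
    rcases Nat.eq_zero_or_pos (Nat.find hex) with h0 | h0
    · rw [h0, Finset.range_zero, Finset.sum_empty]
      linarith
    · obtain ⟨m, hm⟩ := Nat.exists_eq_succ_of_ne_zero h0.ne'
      rw [hm, Nat.succ_eq_add_one, Finset.sum_range_succ]
      have h1 : ¬ σ0 ≤ ∑ i ∈ Finset.range m, sr y Y0 K0 i := Nat.find_min hex (by omega)
      push Not at h1
      have h2 := sr_le_two hy hy2 Y0 K0 m
      linarith
  set n := Nat.find hex with hn
  set F : Finset ℕ := (Finset.range n).filter (fun i => K0 ≤ (Pc y Y0 i).card) with hF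
  have hsum : ∑ i : Fin F.card, ∑ q ∈ Pc y Y0 (F.equivFin.symm i).1, (1 : ℝ) / q =
      ∑ i ∈ Finset.range n, sr y Y0 K0 i := by
    have h1 : ∑ i : Fin F.card, ∑ q ∈ Pc y Y0 (F.equivFin.symm i).1, (1 : ℝ) / q =
        ∑ i : F, ∑ q ∈ Pc y Y0 i.1, (1 : ℝ) / q :=
      Equiv.sum_comp F.equivFin.symm (fun i : F => ∑ q ∈ Pc y Y0 i.1, (1 : ℝ) / q)
    rw [h1]
    rw [Finset.sum_coe_sort F (fun i => ∑ q ∈ Pc y Y0 i, (1 : ℝ) / q), hF, Finset.sum_filter]
    rfl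
  refine ⟨F.card, fun i => y ^ (F.equivFin.symm i).1, fun i => Pc y Y0 (F.equivFin.symm i).1,
    ?_, ?_, ?_, ?_⟩
  · intro i
    refine ⟨one_le_pow₀ hy.le, ?_, ?_⟩
    · exact (Finset.mem_filter.mp (F.equivFin.symm i).2).2
    · intro q hq
      rw [mem_Pc] at hq
      refine ⟨hq.2.1, hq.2.2, hq.1.1, ?_⟩
      have := hq.1.2.le
      rw [pow_succ] at this
      show (q : ℝ) ≤ y * y ^ ((F.equivFin.symm i).1)
      linarith [mul_comm y (y ^ ((F.equivFin.symm i).1))]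
  · intro i i' h
    refine Pc_disj hy Y0 ?_
    intro h1
    exact h (F.equivFin.symm.injective (Subtype.ext h1))
  · rw [hsum]; exact hn1
  · rw [hsum]; exact hn2

end Pool.Agent.SMQ
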