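import Pool.Agent.Lib.MP_452a87_nt.SpecE
import Pool.Agent.Lib.MP_452a87_nt.D.Sdd

/-!
# MP_452a87_nt, E/EPs: power saving, arbitrary integers (helper6)
-/

set_option autoImplicit false

namespace Pool.Agent.SMQ

namespace EPsM

private lemma alg_mono {K K' : IntermediateField ℚ ℂ} (h : K ≤ K') {x : ℂ} (hx : IsAlgebraic K x) :
    IsAlgebraic K' x := by
  let _ : Algebra K K' := (IntermediateField.inclusion h).toRingHom.toAlgebra
  have : IsScalarTower K K' ℂ := IsScalarTower.of_algebraMap_eq fun _ => rfl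
  exact hx.tower_top K'

private lemma alg_trans {K : IntermediateField ℚ ℂ} {S : Set ℂ} (hS : ∀ s ∈ S, IsAlgebraic K s)
    {x : ℂ} (hx : IsAlgebraic (IntermediateField.adjoin ℚ S) x) : IsAlgebraic K x := by
  have h1 : IntermediateField.adjoin ℚ S ≤ (algebraicClosure K ℂ).restrictScalars ℚ := by
    rw [IntermediateField.adjoin_le_iff]
    intro s hs
    exact mem_algebraicClosure_iff.mpr (hS s hs)
  have h2 : IsAlgebraic ((algebraicClosure K ℂ).restrictScalars ℚ) x := alg_mono h1 hx
  have h3 : IsAlgebraic (algebraicClosure K ℂ) x := h2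
  exact h3.restrictScalars K

/-- Proportional over `ℚ`. -/
def Rel (z z' : ℂ) : Prop := ∃ p q : ℤ, p ≠ 0 ∧ q ≠ 0 ∧ (p : ℂ) * z = q * z'

private lemma Rel.symm {z z' : ℂ} (h : Rel z z') : Rel z' z := by
  obtain ⟨p, q, hp, hq, h⟩ := h
  exact ⟨q, p, hq, hp, h.symm⟩

private lemma alg_of_rel {K : IntermediateField ℚ ℂ} {z z' : ℂ} (h : Rel z z')
    (hz : IsAlgebraic K (Complex.exp z')) : IsAlgebraic K (Complex.exp z) := by
  obtain ⟨p, q, hp, hq, h⟩ := h
  have h1 : ∀ (r : ℤ) (w : ℂ), Complex.exp ((r : ℂ) * w) = Complex.exp w ^ r.natAbs ∨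
      Complex.exp ((r : ℂ) * w) = (Complex.exp w ^ r.natAbs)⁻¹ := by
    intro r w
    rcases Int.natAbs_eq r with h2 | h2
    · left
      rw [← Complex.exp_nat_mul]
      congr 2
      conv_lhs => rw [h2]
      simp
    · right
      rw [← Complex.exp_nat_mul, ← Complex.exp_neg]
      congr 1
      have h3 : (r : ℂ) = -((r.natAbs : ℕ) : ℂ) := by
        conv_lhs => rw [h2]
        simp
      rw [h3]
      ring
  have h2 : IsAlgebraic K (Complex.exp ((q : ℂ) * z')) := by
    rcases h1 q z' with h3 | h3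
    · rw [h3]
      exact hz.pow _
    · rw [h3]
      exact (hz.pow _).inv
  have h3 : IsAlgebraic K (Complex.exp ((p : ℂ) * z)) := by
    rw [h]
    exact h2
  refine IsAlgebraic.of_pow (Int.natAbs_pos.mpr hp) ?_
  rcases h1 p z with h4 | h4
  · rw [← h4]
    exact h3
  · have h5 : Complex.exp z ^ p.natAbs = (Complex.exp ((p : ℂ) * z))⁻¹ := by
      rw [h4, inv_inv]
    rw [h5]
    exact h3.inv

private lemma crc_rel {j : ℕ} {C : Finset (Finset (Fin j))} {w w' : Finset (Fin j) → ℂ}
    (h : Crc C (fun A => Complex.exp (w A))) (hv : ∀ A, Rel (w A) (w' A)) :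
    Crc C (fun A => Complex.exp (w' A)) := by
  obtain ⟨h1, h2, h3⟩ := h
  refine ⟨h1, h2, fun A0 hA0 => ?_⟩
  refine alg_of_rel (hv A0).symm (alg_trans ?_ (h3 A0 hA0))
  rintro _ ⟨A, hA, rfl⟩
  refine alg_of_rel (hv A) ?_
  exact isAlgebraic_algebraMap (⟨Complex.exp (w' A),
    IntermediateField.subset_adjoin ℚ _ ⟨A, hA, rfl⟩⟩ : IntermediateField.adjoin ℚ
      ((fun A => Complex.exp (w' A)) '' ((C.erase A0 : Finset (Finset (Fin j))) :
      Set (Finset (Fin j)))))

private lemma crc_dep {j : ℕ} {C : Finset (Finset (Fin j))} {v : Finset (Fin j) → ℂ}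
    (h : Crc C v) :
    ¬ AlgebraicIndependent ℚ (fun A : {A : Finset (Fin j) // A.Nonempty} => v A.1) := by
  intro hai
  obtain ⟨⟨A0, hA0⟩, h2, h3⟩ := h
  have h4 := h3 A0 hA0
  rw [IntermediateField.isAlgebraic_adjoin_iff] at h4
  let s : Set {A : Finset (Fin j) // A.Nonempty} := {A | A.1 ∈ C.erase A0}
  have h5 : v '' ((C.erase A0 : Finset (Finset (Fin j))) : Set (Finset (Fin j))) =
      (fun A : {A : Finset (Fin j) // A.Nonempty} => v A.1) '' s := by
    ext z
    constructor
    · rintro ⟨A, hA, rfl⟩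
      exact ⟨⟨A, h2 A (Finset.mem_of_mem_erase hA)⟩, hA, rfl⟩
    · rintro ⟨A, hA, rfl⟩
      exact ⟨A.1, hA, rfl⟩
  rw [h5] at h4
  exact hai.transcendental_adjoin (s := s) (i := ⟨A0, h2 A0 hA0⟩)
    (fun h => (Finset.mem_erase.mp h).1 rfl) h4

/-- Transfer of badness. -/
private lemma bad_rel (hCi2 : S_Ci2) {m m' j : ℕ} {r : Fin m → ℂ} {L : ℂ}
    {x : Fin j → Finset (Fin m)} {a' : Fin m' → ℕ} {lam : Finset (Fin j) → ℂ}
    {y : Fin j → Finset (Fin m')}
    (h : ∀ A, Rel (rho r (sd A x) * L) (lam A * ((mu a' (sd A y) : ℝ) : ℂ)))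
    (hb : BadT r L x) : BadV a' lam y := by
  obtain ⟨C, hC1, hC2, hC3⟩ := hCi2 j (fun A => ths r L (sd A x)) hb
  have h1 : Crc C (fun A => Complex.exp (rho r (sd A x) * L)) := ⟨hC1, hC2, hC3⟩
  have h2 := crc_rel (w := fun A => rho r (sd A x) * L)
    (w' := fun A => lam A * ((mu a' (sd A y) : ℝ) : ℂ)) h1 h
  exact crc_dep (v := fun A => Complex.exp (lam A * ((mu a' (sd A y) : ℝ) : ℂ))) h2

private lemma prod_sqrt {n : ℕ} (a' : Fin n → ℕ) (ρ : Fin n → ℂ)
    (h : ∀ l, ρ l ^ 2 = (a' l : ℂ)) (Y : Finset (Fin n)) :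
    ∏ l ∈ Y, ρ l = ((mu a' Y : ℝ) : ℂ) ∨ ∏ l ∈ Y, ρ l = -((mu a' Y : ℝ) : ℂ) := by
  apply sq_eq_sq_iff_eq_or_eq_neg.mp
  rw [← Finset.prod_pow, Finset.prod_congr rfl fun l _ => h l]
  unfold mu
  rw [Complex.ofReal_prod, ← Finset.prod_pow]
  refine Finset.prod_congr rfl fun l _ => ?_
  rw [← Complex.ofReal_pow, Real.sq_sqrt (Nat.cast_nonneg _), Complex.ofReal_natCast]

private lemma int_sq {P s t : ℤ} (hs : s ≠ 0) (h : P * s ^ 2 = t * t) : IsSquare P := by
  have h1 : s ^ 2 ∣ t ^ 2 := ⟨P, by rw [mul_comm, h, pow_two]⟩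
  obtain ⟨r, hr⟩ := (Int.pow_dvd_pow_iff two_ne_zero).mp h1
  refine ⟨r, ?_⟩
  have h2 : s ^ 2 ≠ 0 := pow_ne_zero 2 hs
  apply mul_right_cancel₀ h2
  rw [h, hr]
  ring

private lemma ncard_setOf {X : Type} [Fintype X] (P : X → Prop) [DecidablePred P] :
    Set.ncard {x | P x} = (Finset.univ.filter P).card := by
  rw [Set.ncard_eq_toFinset_card', Set.toFinset_setOf]

private lemma numer (j m' n : ℕ) (nE : Finset (Fin j) → ℕ) (h : n ≤ ∑ E, nE E)
    (h2 : ∀ E, (nE E : ℝ) ≤ 2 ^ (2 ^ j) * ((2 : ℝ) ^ (j * (j + 4)) / 2 ^ m') ^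
      (1 / (2 : ℝ) ^ (j * (j + 4))) * 2 ^ (j * m')) :
    (n : ℝ) ≤ 2 * 2 ^ (2 ^ j) * ((2 : ℝ) ^ (j * (j + 4)) / 2 ^ (m' + 1)) ^
      (1 / (2 : ℝ) ^ (j * (j + 4))) * 2 ^ (j * (m' + 1)) := by
  set x0 : ℝ := (2 : ℝ) ^ (j * (j + 4)) / 2 ^ (m' + 1) with hx0
  have hx00 : 0 ≤ x0 := by positivity
  set γ : ℝ := 1 / (2 : ℝ) ^ (j * (j + 4)) with hγ
  have hγ0 : 0 ≤ γ := by positivity
  have hγ1 : γ ≤ 1 := by
    rw [hγ, div_le_one (by positivity)]
    exact one_le_pow₀ (by norm_num)
  have hβ : ((2 : ℝ) ^ (j * (j + 4)) / 2 ^ m') ^ γ ≤ 2 * x0 ^ γ := by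
    have h1 : (2 : ℝ) ^ (j * (j + 4)) / 2 ^ m' = 2 * x0 := by
      rw [hx0, pow_succ]
      field_simp
    rw [h1, Real.mul_rpow (by norm_num) hx00]
    refine mul_le_mul_of_nonneg_right ?_ (Real.rpow_nonneg hx00 _)
    calc (2 : ℝ) ^ γ ≤ (2 : ℝ) ^ (1 : ℝ) := Real.rpow_le_rpow_of_exponent_le (by norm_num) hγ1
      _ = 2 := Real.rpow_one 2
  have h1 : ∀ E, (nE E : ℝ) ≤ 2 ^ (2 ^ j) * (2 * x0 ^ γ) * 2 ^ (j * m') := by
    intro E
    refine (h2 E).trans ?_
    gcongr
  calc (n : ℝ) ≤ ((∑ E, nE E : ℕ) : ℝ) := by exact_mod_cast h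
    _ = ∑ E, (nE E : ℝ) := Nat.cast_sum _ _
    _ ≤ ∑ _E : Finset (Fin j), (2 : ℝ) ^ (2 ^ j) * (2 * x0 ^ γ) * 2 ^ (j * m') :=
          Finset.sum_le_sum fun E _ => h1 E
    _ = 2 * 2 ^ (2 ^ j) * x0 ^ γ * 2 ^ (j * (m' + 1)) := by
          rw [Finset.sum_const, Finset.card_univ, Fintype.card_finset, Fintype.card_fin,
            nsmul_eq_mul, mul_add j m' 1, pow_add 2 (j * m') (j * 1), mul_one]
          push_cast
          ring

end EPsM

open EPsM in
theorem pEPs (hEPw : S_EPw) (hCi2 : S_Ci2) : S_EPs := by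
  classical
  intro j m r a L hr hL
  have ha0 : ∀ l, a l ≠ 0 := by
    intro l h
    apply hr.2 {l} (Finset.singleton_nonempty l)
    rw [Finset.prod_singleton, h]
    exact ⟨0, by norm_num⟩
  have hr0 : ∀ l, r l ≠ 0 := by
    intro l h
    have h1 := hr.1 l
    rw [h, zero_pow two_ne_zero] at h1
    exact ha0 l (by exact_mod_cast h1.symm)
  by_cases hneg : ∃ l0, a l0 < 0
  · obtain ⟨l0, hl0⟩ := hneg
    obtain ⟨m', rfl⟩ : ∃ m', m = m' + 1 := by
      rcases m with _ | m'
      · exact l0.elim0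
      · exact ⟨m', rfl⟩
    let σ : Fin m' → Fin (m' + 1) := l0.succAbove
    have hσinj : Function.Injective σ := Fin.succAbove_right_injective
    have hσne : ∀ l, σ l ≠ l0 := fun l => Fin.succAbove_ne l0 l
    let f : Fin m' → ℤ := fun l => a (σ l) * (if a (σ l) < 0 then a l0 else 1)
    have hf : ∀ l, 0 < f l := by
      intro l
      by_cases h : a (σ l) < 0
      · simp only [f, if_pos h]
        exact mul_pos_of_neg_of_neg h hl0
      · simp only [f, if_neg h, mul_one]
        have := ha0 (σ l)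
        omega
    let a' : Fin m' → ℕ := fun l => (f l).toNat
    have ha' : ∀ l, ((a' l : ℕ) : ℤ) = f l := fun l => Int.toNat_of_nonneg (hf l).le
    let ρ : Fin m' → ℂ := fun l => r (σ l) * (if a (σ l) < 0 then r l0 else 1)
    have hρ : ∀ l, ρ l ^ 2 = (a' l : ℂ) := by
      intro l
      have h1 : ((a' l : ℕ) : ℂ) = ((f l : ℤ) : ℂ) := by
        rw [← ha' l]
        simp
      rw [h1]
      by_cases h : a (σ l) < 0
      · simp only [ρ, f, if_pos h]
        rw [mul_pow, hr.1, hr.1, Int.cast_mul]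
      · simp only [ρ, f, if_neg h, mul_one]
        rw [hr.1]
    let NN : Finset (Fin m') → ℕ := fun Y => (Y.filter (fun l => a (σ l) < 0)).card
    -- independence
    have hInd : Ind a' := by
      intro Y hY hsq
      obtain ⟨t, ht⟩ := hsq
      have h1 : (∏ l ∈ Y, a (σ l)) * a l0 ^ NN Y = (t : ℤ) * t := by
        have h2 : ((∏ l ∈ Y, a' l : ℕ) : ℤ) = ((t * t : ℕ) : ℤ) := by rw [ht]
        push_cast at h2
        rw [← h2]
        have h3 : ∏ l ∈ Y, ((a' l : ℕ) : ℤ) = ∏ l ∈ Y, f l :=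
          Finset.prod_congr rfl fun l _ => ha' l
        rw [h3]
        simp only [f]
        rw [Finset.prod_mul_distrib, ← Finset.prod_filter, Finset.prod_const]
      have h4 : ∏ l ∈ Y, a (σ l) = ∏ l ∈ Y.image σ, a l := by
        rw [Finset.prod_image fun x _ y _ h => hσinj h]
      rcases Nat.even_or_odd (NN Y) with h | h
      · obtain ⟨e, he⟩ := h
        apply hr.2 (Y.image σ) (hY.image σ)
        rw [← h4]
        refine int_sq (s := a l0 ^ e) (t := t) (pow_ne_zero _ (ha0 l0)) ?_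
        rw [← h1, he, ← pow_mul, mul_two]
      · obtain ⟨e, he⟩ := h
        apply hr.2 (insert l0 (Y.image σ)) (Finset.insert_nonempty _ _)
        rw [Finset.prod_insert (by
          rw [Finset.mem_image]
          rintro ⟨l, _, hl⟩
          exact hσne l hl), ← h4]
        refine int_sq (s := a l0 ^ e) (t := t) (pow_ne_zero _ (ha0 l0)) ?_
        rw [← h1, he]
        ring
    -- the two coordinates
    let π : Finset (Fin (m' + 1)) → Finset (Fin m') := fun X =>
      Finset.univ.filter (fun l => σ l ∈ X)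
    let ε : Finset (Fin (m' + 1)) → ZMod 2 := fun X =>
      SddAux.bo (l0 ∈ X) + ∑ l, SddAux.bo (a (σ l) < 0) * SddAux.bo (σ l ∈ X)
    have hπmem : ∀ X l, l ∈ π X ↔ σ l ∈ X := by
      intro X l
      simp only [π, Finset.mem_filter, Finset.mem_univ, true_and]
    have hπsd : ∀ (A : Finset (Fin j)) (x : Fin j → Finset (Fin (m' + 1))),
        π (sd A x) = sd A (fun i => π (x i)) := by
      intro A x
      ext l
      rw [hπmem, SddAux.mem_sd, SddAux.mem_sd]
      have : A.filter (fun i => σ l ∈ x i) = A.filter (fun i => l ∈ π (x i)) := by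
        ext i
        rw [Finset.mem_filter, Finset.mem_filter, hπmem]
      rw [this]
    have hεsd : ∀ (A : Finset (Fin j)) (x : Fin j → Finset (Fin (m' + 1))),
        ε (sd A x) = ∑ i, SddAux.bo (i ∈ A) * ε (x i) := by
      intro A x
      simp only [ε]
      rw [SddAux.bo_sd]
      have h1 : ∀ l, SddAux.bo (a (σ l) < 0) * SddAux.bo (σ l ∈ sd A x) =
          ∑ i, SddAux.bo (i ∈ A) * (SddAux.bo (a (σ l) < 0) * SddAux.bo (σ l ∈ x i)) := by
        intro l
        rw [SddAux.bo_sd, Finset.mul_sum]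
        exact Finset.sum_congr rfl fun i _ => by ring
      rw [Finset.sum_congr rfl fun l _ => h1 l, Finset.sum_comm, ← Finset.sum_add_distrib]
      refine Finset.sum_congr rfl fun i _ => ?_
      rw [mul_add, Finset.mul_sum]
    let EE : (Fin j → Finset (Fin (m' + 1))) → Finset (Fin j) := fun x =>
      Finset.univ.filter (fun i => ε (x i) = 1)
    let lam : Finset (Fin j) → Finset (Fin j) → ℂ := fun E A =>
      L * r l0 ^ (A ∩ E).card
    have hεEE : ∀ (A : Finset (Fin j)) (x : Fin j → Finset (Fin (m' + 1))),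
        ε (sd A x) = (((A ∩ EE x).card : ℕ) : ZMod 2) := by
      intro A x
      rw [hεsd, Finset.card_eq_sum_ones, Nat.cast_sum, ← Finset.sum_filter_add_sum_filter_not
        Finset.univ (fun i => i ∈ A ∩ EE x)]
      have h1 : ∀ i ∈ Finset.univ.filter (fun i => ¬ i ∈ A ∩ EE x),
          SddAux.bo (i ∈ A) * ε (x i) = 0 := by
        intro i hi
        have h2 := (Finset.mem_filter.mp hi).2
        by_cases h3 : i ∈ A
        · have h4 : ε (x i) ≠ 1 := by
            intro h5
            apply h2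
            rw [Finset.mem_inter]
            exact ⟨h3, by simp only [EE, Finset.mem_filter, Finset.mem_univ, true_and]; exact h5⟩
          have h5 : ∀ z : ZMod 2, z ≠ 1 → z = 0 := by decide
          rw [h5 _ h4, mul_zero]
        · have h4 : SddAux.bo (i ∈ A) = 0 := by
            unfold SddAux.bo
            rw [if_neg h3]
          rw [h4, zero_mul]
      rw [Finset.sum_eq_zero h1, add_zero]
      have h2 : Finset.univ.filter (fun i => i ∈ A ∩ EE x) = A ∩ EE x := by
        ext i
        simp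
      rw [h2]
      refine Finset.sum_congr rfl fun i hi => ?_
      have h3 := Finset.mem_inter.mp hi
      have h4 : ε (x i) = 1 := by
        have := h3.2
        simp only [EE, Finset.mem_filter, Finset.mem_univ, true_and] at this
        exact this
      have h5 : SddAux.bo (i ∈ A) = 1 := by
        unfold SddAux.bo
        rw [if_pos h3.1]
      rw [h4, h5]
      norm_num
    -- proportionality
    have hrel : ∀ (X : Finset (Fin (m' + 1))) (n : ℕ), ε X = (n : ZMod 2) →
        Rel (rho r X * L) (L * r l0 ^ n * ((mu a' (π X) : ℝ) : ℂ)) := by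
      intro X n hn
      let u : ℕ := if l0 ∈ X then 1 else 0
      have h1 : rho r X = r l0 ^ u * ∏ l ∈ π X, r (σ l) := by
        have h2 : rho r X = ∏ l, if l ∈ X then r l else 1 := by
          unfold rho
          rw [Finset.prod_ite_mem, Finset.univ_inter]
        rw [h2, Fin.prod_univ_succAbove _ l0]
        congr 1
        · simp only [u]
          split_ifs <;> simp
        · simp only [π]
          rw [Finset.prod_filter]
      have h2 : (∏ l ∈ π X, r (σ l)) * r l0 ^ NN (π X) = ∏ l ∈ π X, ρ l := by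
        simp only [ρ]
        rw [Finset.prod_mul_distrib, ← Finset.prod_filter, Finset.prod_const]
      have h3 : (((NN (π X) + n + u : ℕ)) : ZMod 2) = 0 := by
        have h4 : ε X = (u : ZMod 2) + (NN (π X) : ZMod 2) := by
          simp only [ε]
          congr 1
          · unfold SddAux.bo
            simp only [u]
            split_ifs <;> simp
          · simp only [NN, π]
            rw [Finset.filter_filter, Finset.card_filter, Nat.cast_sum]
            refine Finset.sum_congr rfl fun l _ => ?_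
            unfold SddAux.bo
            by_cases h5 : a (σ l) < 0 <;> by_cases h6 : σ l ∈ X <;> simp [h5, h6]
        push_cast
        rw [← hn, h4]
        have h5 : ∀ z w : ZMod 2, z + (w + z) + w = 0 := by decide
        exact h5 _ _
      obtain ⟨e, he⟩ := (ZMod.natCast_eq_zero_iff_even).mp h3
      have h4 : r l0 ^ (NN (π X) + n + u) = ((a l0 : ℤ) : ℂ) ^ e := by
        rw [he, ← two_mul, pow_mul, hr.1]
      have h5 : rho r X * ((a l0 : ℤ) : ℂ) ^ e =
          ((a l0 : ℤ) : ℂ) ^ u * (r l0 ^ n * ∏ l ∈ π X, ρ l) := by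
        rw [← h4, ← h2, h1, pow_add, pow_add, ← hr.1]
        ring
      rcases prod_sqrt a' ρ hρ (π X) with h6 | h6
      · refine ⟨a l0 ^ e, a l0 ^ u, pow_ne_zero _ (ha0 l0), pow_ne_zero _ (ha0 l0), ?_⟩
        rw [h6] at h5
        push_cast
        linear_combination L * h5
      · refine ⟨a l0 ^ e, -(a l0 ^ u), pow_ne_zero _ (ha0 l0),
          neg_ne_zero.mpr (pow_ne_zero _ (ha0 l0)), ?_⟩
        rw [h6] at h5
        push_cast
        linear_combination L * h5
    have hbad : ∀ x : Fin j → Finset (Fin (m' + 1)), BadT r L x →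
        BadV a' (lam (EE x)) (fun i => π (x i)) := by
      intro x hx
      refine bad_rel (r := r) (L := L) (x := x) (a' := a') (lam := lam (EE x))
        (y := fun i => π (x i)) hCi2 (fun A => ?_) hx
      rw [← hπsd]
      exact hrel (sd A x) _ (hεEE A x)
    -- counting
    have hcount : (Finset.univ.filter (fun x : Fin j → Finset (Fin (m' + 1)) =>
        BadT r L x)).card ≤ ∑ E : Finset (Fin j), (Finset.univ.filter
          (fun y : Fin j → Finset (Fin m') => BadV a' (lam E) y)).card := by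
      rw [← Finset.card_sigma]
      refine Finset.card_le_card_of_injOn (fun x => ⟨EE x, fun i => π (x i)⟩) ?_ ?_
      · intro x hx
        rw [Finset.mem_coe, Finset.mem_filter] at hx
        rw [Finset.mem_coe, Finset.mem_sigma, Finset.mem_filter]
        exact ⟨Finset.mem_univ _, Finset.mem_univ _, hbad x hx.2⟩
      · intro x _ x' _ h
        rw [Sigma.mk.injEq] at h
        obtain ⟨h1, h2⟩ := h
        have h2 := eq_of_heq h2
        funext i
        have h3 : π (x i) = π (x' i) := congrFun h2 i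
        have h4 : ε (x i) = ε (x' i) := by
          have h5 : ε (x i) = 1 ↔ ε (x' i) = 1 := by
            have := Finset.ext_iff.mp h1 i
            simpa only [EE, Finset.mem_filter, Finset.mem_univ, true_and] using this
          have h6 : ∀ z w : ZMod 2, (z = 1 ↔ w = 1) → z = w := by decide
          exact h6 _ _ h5
        have h5 : ∀ l, σ l ∈ x i ↔ σ l ∈ x' i := by
          intro l
          rw [← hπmem, ← hπmem, h3]
        have h6 : SddAux.bo (l0 ∈ x i) = SddAux.bo (l0 ∈ x' i) := by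
          simp only [ε] at h4
          have h7 : ∑ l, SddAux.bo (a (σ l) < 0) * SddAux.bo (σ l ∈ x i) =
              ∑ l, SddAux.bo (a (σ l) < 0) * SddAux.bo (σ l ∈ x' i) := by
            refine Finset.sum_congr rfl fun l _ => ?_
            have h8 : SddAux.bo (σ l ∈ x i) = SddAux.bo (σ l ∈ x' i) := by
              unfold SddAux.bo
              by_cases h9 : σ l ∈ x i
              · rw [if_pos h9, if_pos ((h5 l).mp h9)]
              · rw [if_neg h9, if_neg (fun h => h9 ((h5 l).mpr h))]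
            rw [h8]
          rw [h7] at h4
          exact add_right_cancel h4
        have h7 := SddAux.bo_iff h6
        ext l
        rcases eq_or_ne l l0 with rfl | hl
        · exact h7
        · obtain ⟨l', rfl⟩ := Fin.exists_succAbove_eq hl
          exact h5 l'
    have hlam : ∀ E A, lam E A ≠ 0 := fun E A => mul_ne_zero hL (pow_ne_zero _ (hr0 l0))
    rw [ncard_setOf]
    refine numer j m' _ _ hcount fun E => ?_
    have h2 := hEPw j m' a' (lam E) hInd (hlam E)
    rw [ncard_setOf] at h2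
    exact h2
  · push Not at hneg
    have hpos : ∀ l, 0 < a l := fun l => lt_of_le_of_ne (hneg l) (ha0 l).symm
    let a' : Fin m → ℕ := fun l => (a l).toNat
    have ha' : ∀ l, ((a' l : ℕ) : ℤ) = a l := fun l => Int.toNat_of_nonneg (hpos l).le
    have hInd : Ind a' := by
      intro Y hY hsq
      obtain ⟨t, ht⟩ := hsq
      apply hr.2 Y hY
      refine ⟨(t : ℤ), ?_⟩
      have h2 : ((∏ l ∈ Y, a' l : ℕ) : ℤ) = ((t * t : ℕ) : ℤ) := by rw [ht]
      push_cast at h2
      rw [← h2]
      exact Finset.prod_congr rfl fun l _ => (ha' l).symm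
    have hρ : ∀ l, r l ^ 2 = (a' l : ℂ) := by
      intro l
      rw [hr.1, ← ha' l]
      simp
    have hsub : {x : Fin j → Finset (Fin m) | BadT r L x} ⊆ {x | BadV a' (fun _ => L) x} := by
      intro x hx
      have hx' : BadT r L x := hx
      change BadV a' (fun _ => L) x
      refine bad_rel (r := r) (L := L) (x := x) (a' := a') (lam := fun _ => L) (y := x) hCi2
        (fun A => ?_) hx'
      rcases prod_sqrt a' r hρ (sd A x) with h | h
      · refine ⟨1, 1, one_ne_zero, one_ne_zero, ?_⟩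
        unfold rho
        rw [h]
        push_cast
        ring
      · refine ⟨1, -1, one_ne_zero, by norm_num, ?_⟩
        unfold rho
        rw [h]
        push_cast
        ring
    have h1 := Set.ncard_le_ncard hsub (Set.toFinite _)
    have h2 := hEPw j m a' (fun _ => L) hInd (fun _ => hL)
    have h3 : (Set.ncard {x : Fin j → Finset (Fin m) | BadT r L x} : ℝ) ≤
        (Set.ncard {x : Fin j → Finset (Fin m) | BadV a' (fun _ => L) x} : ℝ) := by
      exact_mod_cast h1
    refine h3.trans (h2.trans ?_)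
    have h4 : 0 ≤ (2 : ℝ) ^ (2 ^ j) * ((2 : ℝ) ^ (j * (j + 4)) / 2 ^ m) ^
        (1 / (2 : ℝ) ^ (j * (j + 4))) * 2 ^ (j * m) := by positivity
    linarith

end Pool.Agent.SMQ
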