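import Pool.Agent.Lib.MP_452a87_nt.SpecE

/-!
# MP_452a87_nt, E/EPw: power saving, positive integers (helper6)
-/

set_option autoImplicit false

namespace Pool.Agent.SMQ

namespace EPwM

private lemma alg_mono {K K' : IntermediateField ℚ ℂ} (h : K ≤ K') {x : ℂ} (hx : IsAlgebraic K x) :
    IsAlgebraic K' x := by
  let _ : Algebra K K' := (IntermediateField.inclusion h).toRingHom.toAlgebra
  have : IsScalarTower K K' ℂ := IsScalarTower.of_algebraMap_eq fun _ => rfl
  exact hx.tower_top K'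

private lemma alg_trans {K : IntermediateField ℚ ℂ} {S : Set ℂ} (hS : ∀ s ∈ S, IsAlgebraic K s)
    {x : ℂ} (hx : IsAlgebraic (IntermediateField.adjoin ℚ S) x) : IsAlgebraic K x := by
  have h1 : IntermediateField.adjoin ℚ S ≤ (algebraicClosure K ℂ).restrictScalars ℚ := by
    rw [IntermediateField.adjoin_le_iff]
    intro s hs
    exact mem_algebraicClosure_iff.mpr (hS s hs)
  have h2 : IsAlgebraic ((algebraicClosure K ℂ).restrictScalars ℚ) x := alg_mono h1 hx
  have h3 : IsAlgebraic (algebraicClosure K ℂ) x := h2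
  exact h3.restrictScalars K

/-- A power of a circuit is a circuit. -/
private lemma crc_pow {j : ℕ} {C : Finset (Finset (Fin j))} {v v' : Finset (Fin j) → ℂ}
    (h : Crc C v) (hv : ∀ A, ∃ s : ℕ, 0 < s ∧ v' A = v A ^ s) : Crc C v' := by
  obtain ⟨h1, h2, h3⟩ := h
  refine ⟨h1, h2, fun A0 hA0 => ?_⟩
  obtain ⟨s, hs, hss⟩ := hv A0
  rw [hss]
  refine IsAlgebraic.pow (alg_trans ?_ (h3 A0 hA0)) s
  rintro _ ⟨A, hA, rfl⟩
  obtain ⟨s, hs, hss⟩ := hv A
  refine IsAlgebraic.of_pow hs ?_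
  rw [← hss]
  exact isAlgebraic_algebraMap (⟨v' A, IntermediateField.subset_adjoin ℚ _ ⟨A, hA, rfl⟩⟩ :
    IntermediateField.adjoin ℚ (v' '' ((C.erase A0 : Finset (Finset (Fin j))) :
      Set (Finset (Fin j)))))

private lemma mu_eq {κ : Type} (a : κ → ℕ) (U : Finset κ) :
    mu a U = Real.sqrt ((∏ l ∈ U, a l : ℕ) : ℝ) := by
  classical
  unfold mu
  induction U using Finset.induction_on with
  | empty => simp
  | insert i s hi ih =>
    rw [Finset.prod_insert hi, Finset.prod_insert hi, ih, Nat.cast_mul,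
      Real.sqrt_mul (Nat.cast_nonneg _)]

/-- Parity of a product of products. -/
private lemma parity {σ : Type} {m : ℕ} (a : Fin m → ℕ) (ha : ∀ l, 0 < a l) (X : Finset σ)
    (u : σ → Finset (Fin m)) : ∃ s : ℕ, 0 < s ∧ ∏ p ∈ X, ∏ l ∈ u p, a l =
      (∏ l ∈ Finset.univ.filter (fun l => Odd (X.filter (fun p => l ∈ u p)).card), a l) * s ^ 2 := by
  classical
  refine ⟨∏ l, a l ^ ((X.filter (fun p => l ∈ u p)).card / 2),
    Finset.prod_pos fun l _ => pow_pos (ha l) _, ?_⟩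
  have h1 : ∏ p ∈ X, ∏ l ∈ u p, a l = ∏ l, a l ^ (X.filter (fun p => l ∈ u p)).card := by
    have h2 : ∀ p ∈ X, ∏ l ∈ u p, a l = ∏ l, if l ∈ u p then a l else 1 := by
      intro p _
      rw [Finset.prod_ite_mem, Finset.univ_inter]
    rw [Finset.prod_congr rfl h2, Finset.prod_comm]
    refine Finset.prod_congr rfl fun l _ => ?_
    rw [← Finset.prod_filter, Finset.prod_const]
  rw [h1, Finset.prod_filter, ← Finset.prod_pow, ← Finset.prod_mul_distrib]
  refine Finset.prod_congr rfl fun l _ => ?_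
  rw [← pow_mul]
  set n := (X.filter (fun p => l ∈ u p)).card with hn
  rcases Nat.even_or_odd n with h | h
  · rw [if_neg (Nat.not_odd_iff_even.mpr h), one_mul]
    congr 1
    obtain ⟨r, hr⟩ := h
    omega
  · rw [if_pos h, ← pow_succ']
    congr 1
    obtain ⟨r, hr⟩ := h
    omega

private lemma sq_of {P s t : ℕ} (hs : 0 < s) (h : P * s ^ 2 = t * t) : IsSquare P := by
  have h1 : s ^ 2 ∣ t ^ 2 := ⟨P, by rw [mul_comm, h, pow_two]⟩
  obtain ⟨r, hr⟩ := (Nat.pow_dvd_pow_iff two_ne_zero).mp h1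
  refine ⟨r, ?_⟩
  have h2 : 0 < s ^ 2 := by positivity
  apply Nat.eq_of_mul_eq_mul_right h2
  rw [h, hr]
  ring

private lemma symm_prod {m : ℕ} (a : Fin m → ℕ) (U V : Finset (Fin m)) :
    (∏ l ∈ U, a l) * ∏ l ∈ V, a l = (∏ l ∈ symmDiff U V, a l) * (∏ l ∈ U ∩ V, a l) ^ 2 := by
  classical
  have h1 : ∏ l ∈ U, a l = (∏ l ∈ U \ V, a l) * ∏ l ∈ U ∩ V, a l := by
    rw [← Finset.prod_union (Finset.disjoint_sdiff_inter U V), Finset.sdiff_union_inter]
  have h2 : ∏ l ∈ V, a l = (∏ l ∈ V \ U, a l) * ∏ l ∈ U ∩ V, a l := by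
    rw [Finset.inter_comm, ← Finset.prod_union (Finset.disjoint_sdiff_inter V U),
      Finset.sdiff_union_inter]
  have h3 : ∏ l ∈ symmDiff U V, a l = (∏ l ∈ U \ V, a l) * ∏ l ∈ V \ U, a l := by
    rw [← Finset.prod_union disjoint_sdiff_sdiff]
    rfl
  rw [h1, h2, h3]
  ring

private lemma exists_large {X I : Type} [Fintype X] [Fintype I] (B : Set X) (F : I → Set X)
    (h : ∀ x ∈ B, ∃ i, x ∈ F i) (y : ℝ)
    (hy : y * Fintype.card I < (B.ncard : ℝ)) : ∃ i, y < ((F i).ncard : ℝ) := by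
  classical
  by_contra hcon
  push Not at hcon
  have h1 : B.ncard ≤ ∑ i, (F i).ncard := by
    have h2 : B ⊆ ((Finset.univ.biUnion fun i => (F i).toFinset : Finset X) : Set X) := by
      intro x hx
      obtain ⟨i, hi⟩ := h x hx
      rw [Finset.mem_coe, Finset.mem_biUnion]
      exact ⟨i, Finset.mem_univ i, Set.mem_toFinset.mpr hi⟩
    refine (Set.ncard_le_ncard h2 (Finset.finite_toSet _)).trans ?_
    rw [Set.ncard_coe_finset]
    refine Finset.card_biUnion_le.trans (le_of_eq ?_)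
    exact Finset.sum_congr rfl fun i _ => (Set.ncard_eq_toFinset_card' (F i)).symm
  have h3 : (B.ncard : ℝ) ≤ ∑ i, ((F i).ncard : ℝ) := by exact_mod_cast h1
  have h4 : ∑ i, ((F i).ncard : ℝ) ≤ ∑ _i : I, y := Finset.sum_le_sum fun i _ => hcon i
  rw [Finset.sum_const, Finset.card_univ, nsmul_eq_mul] at h4
  linarith

end EPwM

open EPwM in
theorem pEPw (hECb : S_ECb) (hEGb : S_EGb) (hCi2 : S_Ci2) : S_EPw := by
  classical
  intro j m a lam ha hlam
  have hapos : ∀ l, 0 < a l := by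
    intro l
    rcases Nat.eq_zero_or_pos (a l) with h | h
    · exfalso
      apply ha {l} (Finset.singleton_nonempty l)
      rw [Finset.prod_singleton, h]
      exact ⟨0, by norm_num⟩
    · exact h
  by_contra hcon
  rw [not_le] at hcon
  set x0 : ℝ := (2 : ℝ) ^ (j * (j + 4)) / 2 ^ m with hx0
  have hx00 : 0 ≤ x0 := by positivity
  set β : ℝ := x0 ^ (1 / (2 : ℝ) ^ (j * (j + 4))) with hβ
  have hβ0 : 0 ≤ β := Real.rpow_nonneg hx00 _
  have hβp : β ^ (2 ^ (j * (j + 4))) = x0 := by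
    rw [hβ]
    have h1 : (1 / (2 : ℝ) ^ (j * (j + 4))) = (((2 ^ (j * (j + 4)) : ℕ) : ℝ))⁻¹ := by
      push_cast
      rw [one_div]
    rw [h1]
    exact Real.rpow_inv_natCast_pow hx00 (by positivity)
  let v : (Fin j → Finset (Fin m)) → Finset (Fin j) → ℂ := fun x A =>
    Complex.exp (lam A * ((mu a (sd A x) : ℝ) : ℂ))
  obtain ⟨C, hC⟩ := exists_large {x : Fin j → Finset (Fin m) | BadV a lam x}
    (fun C => {x | Crc C (v x)}) (fun x hx => hCi2 j (v x) hx) (β * 2 ^ (j * m)) (by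
      rw [Fintype.card_finset, Fintype.card_finset, Fintype.card_fin]
      refine lt_of_le_of_lt (le_of_eq ?_) hcon
      push_cast
      ring)
  have h1 : (2 : ℝ) ^ (j * (j + 4)) / 2 ^ m <
      ((Set.ncard {x | Crc C (v x)} : ℝ) / 2 ^ (j * m)) ^ (2 ^ (j * (j + 4))) := by
    rw [← hx0, ← hβp]
    apply pow_lt_pow_left₀ _ hβ0 (by positivity)
    rw [lt_div_iff₀ (by positivity)]
    exact hC
  obtain ⟨c, w, hw, hcw⟩ := hEGb j (j + 4) m {x | Crc C (v x)} h1
  let xW : (Fin j → Finset (Fin (j + 4))) → Fin j → Finset (Fin m) := fun W i =>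
    symmDiff (c i) (sd (W i) (w i))
  obtain ⟨W, hW⟩ := hECb j (fun i => ∏ l ∈ c i, a l) (fun i l => ∏ l' ∈ w i l, a l') lam C
    (fun W i => ∏ l ∈ xW W i, a l) (fun i => Finset.prod_pos fun l _ => hapos l) (by
      intro X hX hsq
      obtain ⟨t, ht⟩ := hsq
      obtain ⟨s, hs, hss⟩ := parity a hapos X (fun p => w p.1 p.2)
      obtain ⟨l0, hl0⟩ := hw X hX
      refine ha (Finset.univ.filter (fun l => Odd (X.filter (fun p => l ∈ w p.1 p.2)).card))
        ⟨l0, by rw [Finset.mem_filter]; exact ⟨Finset.mem_univ _, hl0⟩⟩ ?_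
      apply sq_of hs
      rw [← hss]
      exact ht) hlam (by
      intro W i
      obtain ⟨s, hs, hss⟩ := parity a hapos (W i) (w i)
      refine ⟨s * ∏ l ∈ c i ∩ sd (W i) (w i), a l, 1,
        Nat.mul_pos hs (Finset.prod_pos fun l _ => hapos l), one_pos, ?_⟩
      change (∏ l ∈ symmDiff (c i) (sd (W i) (w i)), a l) * _ = _
      rw [hss]
      have h2 := symm_prod a (c i) (sd (W i) (w i))
      have h3 : (∏ l ∈ Finset.univ.filter (fun l => Odd ((W i).filter (fun p => l ∈ w i p)).card),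
          a l) = ∏ l ∈ sd (W i) (w i), a l := rfl
      rw [h3, ← mul_assoc, h2]
      ring)
  apply hW
  refine crc_pow (hcw W) ?_
  intro A
  obtain ⟨s, hs, hss⟩ := parity a hapos A (xW W)
  refine ⟨s, hs, ?_⟩
  change vn lam (fun i => ∏ l ∈ xW W i, a l) A =
    Complex.exp (lam A * ((mu a (sd A (xW W)) : ℝ) : ℂ)) ^ s
  unfold vn
  rw [← Complex.exp_nat_mul, hss, mu_eq, Nat.cast_mul, Real.sqrt_mul (Nat.cast_nonneg _),
    Nat.cast_pow, Real.sqrt_sq (Nat.cast_nonneg _), Complex.ofReal_mul, Complex.ofReal_natCast]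
  congr 1
  have h3 : (∏ l ∈ Finset.univ.filter (fun l => Odd (A.filter (fun i => l ∈ xW W i)).card),
      a l) = ∏ l ∈ sd A (xW W), a l := rfl
  rw [h3]
  ring

end Pool.Agent.SMQ
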