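import Pool.Agent.Lib.MP_452a87_nt.SpecE

/-!
# 452a87 E/ESq: most tuples are independent modulo squares
-/

set_option autoImplicit false

namespace Pool.Agent.SMQ

open Finset

namespace ESqAux

open Classical in
theorem sq_count (c X : ℕ) (hc : 0 < c) :
    ((Finset.Icc 1 X).filter (fun n => IsSquare (c * n))).card ≤ Nat.sqrt X := by
  obtain ⟨s, t, hst, hsq⟩ := Nat.sq_mul_squarefree c
  have hs0 : 0 < s := Nat.pos_of_ne_zero hsq.ne_zero
  have ht0 : 0 < t := by
    rcases Nat.eq_zero_or_pos t with h | h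
    · rw [h] at hst
      simp at hst
      omega
    · exact h
  have hsub : (Finset.Icc 1 X).filter (fun n => IsSquare (c * n)) ⊆
      (Finset.Icc 1 (Nat.sqrt X)).image (fun u => s * u ^ 2) := by
    intro n hn
    rw [Finset.mem_filter, Finset.mem_Icc] at hn
    obtain ⟨⟨hn1, hnX⟩, x, hx⟩ := hn
    have h1 : t ^ 2 * (s * n) = x ^ 2 := by
      rw [← mul_assoc, hst, hx, sq]
    have h2 : t ∣ x := by
      have : t ^ 2 ∣ x ^ 2 := ⟨s * n, h1.symm⟩
      exact (Nat.pow_dvd_pow_iff two_ne_zero).mp this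
    obtain ⟨y, rfl⟩ := h2
    have h3 : s * n = y ^ 2 := by
      have : t ^ 2 * (s * n) = t ^ 2 * y ^ 2 := by rw [h1]; ring
      exact Nat.eq_of_mul_eq_mul_left (by positivity) this
    have h4 : s ∣ y := (hsq.dvd_pow_iff_dvd two_ne_zero).mp ⟨n, h3.symm⟩
    obtain ⟨u, rfl⟩ := h4
    have h5 : n = s * u ^ 2 := by
      have : s * n = s * (s * u ^ 2) := by rw [h3]; ring
      exact Nat.eq_of_mul_eq_mul_left hs0 this
    rw [Finset.mem_image]
    refine ⟨u, ?_, h5.symm⟩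
    rw [Finset.mem_Icc]
    constructor
    · rcases Nat.eq_zero_or_pos u with h | h
      · rw [h] at h5
        simp at h5
        omega
      · exact h
    · rw [Nat.le_sqrt']
      calc u ^ 2 ≤ s * u ^ 2 := Nat.le_mul_of_pos_left _ hs0
        _ = n := h5.symm
        _ ≤ X := hnX
  calc _ ≤ ((Finset.Icc 1 (Nat.sqrt X)).image (fun u => s * u ^ 2)).card := Finset.card_le_card hsub
    _ ≤ (Finset.Icc 1 (Nat.sqrt X)).card := Finset.card_image_le
    _ = Nat.sqrt X := by rw [Nat.card_Icc]; omega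

open Classical in
theorem fib_count (j X : ℕ) (A : Finset (Fin j)) (hA : A.Nonempty) :
    ((Fintype.piFinset (fun _ : Fin j => Finset.Icc 1 X)).filter
      (fun a => IsSquare (∏ i ∈ A, a i))).card ≤ Nat.sqrt X * X ^ (j - 1) := by
  obtain ⟨i0, hi0⟩ := hA
  have hcard : (Fintype.piFinset (fun _ : {i : Fin j // i ≠ i0} => Finset.Icc 1 X)).card = X ^ (j - 1) := by
    rw [Fintype.card_piFinset]
    simp [Fintype.card_subtype_compl]
  rw [← hcard]
  refine Finset.card_le_mul_card_image_of_maps_to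
    (f := fun (a : Fin j → ℕ) (i : {i : Fin j // i ≠ i0}) => a i.1) ?_ _ ?_
  · intro a ha
    rw [Finset.mem_filter, Fintype.mem_piFinset] at ha
    rw [Fintype.mem_piFinset]
    intro i
    exact ha.1 i.1
  · intro b hb
    rw [Fintype.mem_piFinset] at hb
    set c : ℕ := ∏ i ∈ A.erase i0, (if h : i ≠ i0 then b ⟨i, h⟩ else 1) with hc
    have hc0 : 0 < c := by
      refine Finset.prod_pos fun i _ => ?_
      split_ifs with h
      · exact (Finset.mem_Icc.mp (hb ⟨i, h⟩)).1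
      · exact Nat.one_pos
    refine le_trans ?_ (sq_count c X hc0)
    refine Finset.card_le_card_of_injOn (fun a => a i0) ?_ ?_
    · intro a ha
      have ha' := Finset.mem_filter.mp (Finset.mem_coe.mp ha)
      have ha1 := Finset.mem_filter.mp ha'.1
      rw [Fintype.mem_piFinset] at ha1
      have h2 : ∏ i ∈ A, a i = c * a i0 := by
        rw [← Finset.prod_erase_mul A a hi0, hc]
        congr 1
        refine Finset.prod_congr rfl fun i hi => ?_
        rw [dif_pos (Finset.ne_of_mem_erase hi)]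
        exact congrFun ha'.2 ⟨i, Finset.ne_of_mem_erase hi⟩
      show a i0 ∈ _
      rw [Finset.coe_filter, Set.mem_ofPred_eq]
      refine ⟨ha1.1 i0, ?_⟩
      rw [← h2]
      exact ha1.2
    · intro a ha a' ha' h
      have h1 := (Finset.mem_filter.mp (Finset.mem_coe.mp ha)).2
      have h2 := (Finset.mem_filter.mp (Finset.mem_coe.mp ha')).2
      funext i
      by_cases hi : i = i0
      · rw [hi]; exact h
      · exact (congrFun h1 ⟨i, hi⟩).trans (congrFun h2 ⟨i, hi⟩).symm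

end ESqAux

open ESqAux

theorem pESq : S_ESq := by
  intro j ε hε
  classical
  refine ⟨⌈((2 : ℝ) ^ j / ε) ^ 2⌉₊ + 1, fun X hX => ?_⟩
  have hXr : ((2 : ℝ) ^ j / ε) ^ 2 ≤ (X : ℝ) := by
    have h1 : ((2 : ℝ) ^ j / ε) ^ 2 ≤ (⌈((2 : ℝ) ^ j / ε) ^ 2⌉₊ : ℝ) := Nat.le_ceil _
    have h2 : ((⌈((2 : ℝ) ^ j / ε) ^ 2⌉₊ + 1 : ℕ) : ℝ) ≤ X := by exact_mod_cast hX
    push_cast at h2
    linarith
  have hX0 : 0 < X := by omega
  rcases Nat.eq_zero_or_pos j with hj | hj
  · subst hj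
    have : {a : Fin 0 → ℕ | (∀ i, 1 ≤ a i ∧ a i ≤ X) ∧
        ∃ A : Finset (Fin 0), A.Nonempty ∧ IsSquare (∏ i ∈ A, a i)} = ∅ := by
      ext a
      simp only [Set.mem_ofPred_eq, Set.mem_empty_iff_false, iff_false, not_and]
      rintro _ ⟨A, ⟨i, _⟩, _⟩
      exact i.elim0
    rw [this, Set.ncard_empty, Nat.cast_zero]
    positivity
  set T : Finset (Fin j → ℕ) := ((Finset.univ : Finset (Finset (Fin j))).filter (fun A => A.Nonempty)).biUnion
    (fun A => (Fintype.piFinset (fun _ : Fin j => Finset.Icc 1 X)).filter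
      (fun a => IsSquare (∏ i ∈ A, a i))) with hT
  have hsub : {a : Fin j → ℕ | (∀ i, 1 ≤ a i ∧ a i ≤ X) ∧
      ∃ A : Finset (Fin j), A.Nonempty ∧ IsSquare (∏ i ∈ A, a i)} ⊆ (T : Set (Fin j → ℕ)) := by
    rintro a ⟨ha, A, hA, hsq⟩
    rw [Finset.mem_coe, hT, Finset.mem_biUnion]
    refine ⟨A, Finset.mem_filter.mpr ⟨Finset.mem_univ _, hA⟩, ?_⟩
    rw [Finset.mem_filter, Fintype.mem_piFinset]
    exact ⟨fun i => Finset.mem_Icc.mpr (ha i), hsq⟩
  have h1 : Set.ncard {a : Fin j → ℕ | (∀ i, 1 ≤ a i ∧ a i ≤ X) ∧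
      ∃ A : Finset (Fin j), A.Nonempty ∧ IsSquare (∏ i ∈ A, a i)} ≤ T.card := by
    rw [← Set.ncard_coe_finset]
    exact Set.ncard_le_ncard hsub (Finset.finite_toSet T)
  have h2 : T.card ≤ 2 ^ j * (Nat.sqrt X * X ^ (j - 1)) := by
    have h3 : T.card ≤ ((Finset.univ : Finset (Finset (Fin j))).filter (fun A => A.Nonempty)).card *
        (Nat.sqrt X * X ^ (j - 1)) := by
      refine Finset.card_biUnion_le_card_mul _ _ _ ?_
      intro A hA
      exact fib_count j X A (Finset.mem_filter.mp hA).2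
    have h4 : ((Finset.univ : Finset (Finset (Fin j))).filter (fun A => A.Nonempty)).card ≤ 2 ^ j := by
      refine (Finset.card_filter_le _ _).trans ?_
      simp
    exact h3.trans (Nat.mul_le_mul_right _ h4)
  have h3 : (Set.ncard {a : Fin j → ℕ | (∀ i, 1 ≤ a i ∧ a i ≤ X) ∧
      ∃ A : Finset (Fin j), A.Nonempty ∧ IsSquare (∏ i ∈ A, a i)} : ℝ) ≤
      2 ^ j * (Nat.sqrt X * (X : ℝ) ^ (j - 1)) := by
    exact_mod_cast h1.trans h2
  refine h3.trans ?_
  have h4 : (Nat.sqrt X : ℝ) ≤ Real.sqrt X := Real.nat_sqrt_le_real_sqrt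
  have h5 : (2 : ℝ) ^ j / ε ≤ Real.sqrt X := Real.le_sqrt_of_sq_le hXr
  have h6 : (2 : ℝ) ^ j ≤ Real.sqrt X * ε := (div_le_iff₀ hε).mp h5
  have h7 : (X : ℝ) ^ j = X * (X : ℝ) ^ (j - 1) := by
    conv_lhs => rw [show j = (j - 1) + 1 by omega]
    rw [pow_succ]
    ring
  have h8 : (X : ℝ) = Real.sqrt X * Real.sqrt X := (Real.mul_self_sqrt (by positivity)).symm
  have hs0 : (0 : ℝ) ≤ Real.sqrt X := Real.sqrt_nonneg _
  have h9 : (2 : ℝ) ^ j * (Nat.sqrt X : ℝ) ≤ ε * X := by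
    calc (2 : ℝ) ^ j * (Nat.sqrt X : ℝ) ≤ (Real.sqrt X * ε) * Real.sqrt X :=
          mul_le_mul h6 h4 (by positivity) (by positivity)
      _ = ε * (Real.sqrt X * Real.sqrt X) := by ring
      _ = ε * X := by rw [← h8]
  rw [h7, ← mul_assoc, ← mul_assoc]
  exact mul_le_mul_of_nonneg_right h9 (by positivity)

end Pool.Agent.SMQ
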