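import Pool.Agent.Lib.MP_452a87_nt.SpecE

/-!
# MP_452a87_nt, E/ESv: integers without prime factors in a finite set (helper25, task 12655)
-/

set_option autoImplicit false

namespace Pool.Agent.SMQ

theorem pESv : S_ESv := by
  intro Ps hPs X
  classical
  set Q : ℕ := ∏ q ∈ Ps, q with hQ
  have hQpos : 0 < Q := Finset.prod_pos fun q hq => (hPs q hq).pos
  have hQ0 : (0 : ℝ) < Q := by exact_mod_cast hQpos
  have h1 : (Finset.Icc 1 X).filter (fun n => ∀ q ∈ Ps, ¬ q ∣ n) =
      (Finset.Ico 1 (1 + X)).filter (fun n => Nat.Coprime Q n) := by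
    ext n
    simp only [Finset.mem_filter, Finset.mem_Icc, Finset.mem_Ico]
    have h2 : Nat.Coprime Q n ↔ ∀ q ∈ Ps, ¬ q ∣ n := by
      rw [hQ, Nat.coprime_prod_left_iff]
      exact forall₂_congr fun q hq => (hPs q hq).coprime_iff_not_dvd
    rw [h2]
    refine and_congr ?_ Iff.rfl
    omega
  have h3 := Nat.Ico_filter_coprime_le 1 X hQpos.ne'
  have h4 : (Nat.totient Q : ℝ) = Q * ∏ q ∈ Ps, (1 - (q : ℝ)⁻¹) := by
    have h5 := Nat.totient_eq_mul_prod_factors Q
    rw [hQ, Nat.primeFactors_prod hPs] at h5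
    rw [hQ]
    have h6 := congrArg (fun x : ℚ => (x : ℝ)) h5
    simp only [Rat.cast_mul, Rat.cast_natCast, Rat.cast_prod, Rat.cast_sub, Rat.cast_one,
      Rat.cast_inv] at h6
    exact h6
  have h6 : ∏ q ∈ Ps, (1 - (q : ℝ)⁻¹) ≤ Real.exp (-∑ q ∈ Ps, (1 : ℝ) / q) := by
    rw [← Finset.sum_neg_distrib, Real.exp_sum]
    refine Finset.prod_le_prod (fun q hq => ?_) fun q _ => ?_
    · have : (1 : ℝ) ≤ q := by exact_mod_cast (hPs q hq).one_le
      have := inv_le_one_of_one_le₀ this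
      linarith
    · rw [one_div]
      exact Real.one_sub_le_exp_neg _
  have h7 : (((Finset.Icc 1 X).filter (fun n => ∀ q ∈ Ps, ¬ q ∣ n)).card : ℝ) ≤
      Nat.totient Q * (X / Q + 1) := by
    rw [h1]
    calc _ ≤ ((Nat.totient Q * (X / Q + 1) : ℕ) : ℝ) := by exact_mod_cast h3
      _ ≤ _ := by
        push_cast
        gcongr
        exact Nat.cast_div_le
  refine h7.trans ?_
  have h8 : (Nat.totient Q : ℝ) ≤ Q := by exact_mod_cast Nat.totient_le Q
  calc (Nat.totient Q : ℝ) * (X / Q + 1) = X * (Nat.totient Q / Q) + Nat.totient Q := by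
        field_simp
    _ ≤ X * Real.exp (-∑ q ∈ Ps, (1 : ℝ) / q) + Q := by
        gcongr
        rw [h4, mul_div_cancel_left₀ _ hQ0.ne']
        exact h6

end Pool.Agent.SMQ
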