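import Pool.Agent.Lib.MP_452a87_nt.SpecE

/-!
# 452a87 E/ENt: natural density of good tuples, with arbitrary multipliers
-/

set_option autoImplicit false

namespace Pool.Agent.SMQ

open Finset

namespace ENtAux

open Classical in
theorem ncard_bx (j X : ℕ) (R : (Fin j → ℕ) → Prop) :
    Set.ncard {a : Fin j → ℕ | (∀ i, 1 ≤ a i ∧ a i ≤ X) ∧ R a} =
      ((Fintype.piFinset (fun _ : Fin j => Finset.Icc 1 X)).filter R).card := by
  rw [← Set.ncard_coe_finset]
  congr 1
  ext a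
  rw [Finset.mem_coe, Finset.mem_filter, Fintype.mem_piFinset]
  constructor
  · rintro ⟨h1, h2⟩
    exact ⟨fun i => Finset.mem_Icc.mpr (h1 i), h2⟩
  · rintro ⟨h1, h2⟩
    exact ⟨fun i => Finset.mem_Icc.mp (h1 i), h2⟩

theorem ind_of (j k : ℕ) (q : Bool → Fin j → Fin k → ℕ) (hq : ∀ s i l, (q s i l).Prime)
    (hinj : Function.Injective (fun p : Bool × Fin j × Fin k => q p.1 p.2.1 p.2.2)) :
    Ind (fun p : Fin j × Fin k => q false p.1 p.2 * q true p.1 p.2) := by
  rintro X ⟨p0, hp0⟩ ⟨y, hy⟩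
  have hpr := hq false p0.1 p0.2
  rw [← Finset.mul_prod_erase X _ hp0] at hy
  have h1 : q false p0.1 p0.2 ∣ y * y := by
    rw [← hy]
    exact (Dvd.intro _ rfl : q false p0.1 p0.2 ∣ q false p0.1 p0.2 * q true p0.1 p0.2).mul_right _
  have h2 : q false p0.1 p0.2 ∣ y := by
    rcases (hpr.dvd_mul).mp h1 with h | h <;> exact h
  obtain ⟨u, rfl⟩ := h2
  have h3 : q true p0.1 p0.2 * ∏ p ∈ X.erase p0, (q false p.1 p.2 * q true p.1 p.2) =
      q false p0.1 p0.2 * (u * u) := by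
    refine Nat.eq_of_mul_eq_mul_left hpr.pos ?_
    calc _ = q false p0.1 p0.2 * q true p0.1 p0.2 *
        ∏ p ∈ X.erase p0, (q false p.1 p.2 * q true p.1 p.2) := by ring
      _ = _ := hy
      _ = _ := by ring
  have h4 : q false p0.1 p0.2 ∣ q true p0.1 p0.2 *
      ∏ p ∈ X.erase p0, (q false p.1 p.2 * q true p.1 p.2) := by
    rw [h3]
    exact Dvd.intro _ rfl
  have hne : ∀ (s : Bool) (p : Fin j × Fin k), q false p0.1 p0.2 = q s p.1 p.2 → false = s ∧ p0 = p := by
    intro s p h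
    have := hinj (a₁ := (false, p0.1, p0.2)) (a₂ := (s, p.1, p.2)) h
    rw [Prod.mk.injEq] at this
    exact this
  rcases (hpr.dvd_mul).mp h4 with h | h
  · have := (Nat.prime_dvd_prime_iff_eq hpr (hq true p0.1 p0.2)).mp h
    have := (hne true p0 this).1
    exact absurd this (by decide)
  · obtain ⟨p, hp, hpd⟩ := (hpr.prime.dvd_finsetProd_iff _).mp h
    have hpp : p0 ≠ p := fun h' => Finset.ne_of_mem_erase hp h'.symm
    rcases (hpr.dvd_mul).mp hpd with h' | h'
    · exact hpp (hne false p ((Nat.prime_dvd_prime_iff_eq hpr (hq false p.1 p.2)).mp h')).2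
    · exact hpp (hne true p ((Nat.prime_dvd_prime_iff_eq hpr (hq true p.1 p.2)).mp h')).2

theorem prod_id (k : ℕ) (f g : Fin k → ℕ) (W : Finset (Fin k)) :
    (∏ l, (if l ∈ W then g l else f l)) * (∏ l ∈ W, f l) ^ 2 =
      (∏ l, f l) * ∏ l ∈ W, (f l * g l) := by
  have h1 : ∏ l, (if l ∈ W then g l else f l) = (∏ l ∈ W, g l) * ∏ l ∈ Wᶜ, f l := by
    rw [← Finset.prod_mul_prod_compl W]
    congr 1
    · exact Finset.prod_congr rfl fun l hl => by rw [if_pos hl]
    · exact Finset.prod_congr rfl fun l hl => by rw [if_neg (Finset.mem_compl.mp hl)]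
  have h2 : ∏ l, f l = (∏ l ∈ W, f l) * ∏ l ∈ Wᶜ, f l := (Finset.prod_mul_prod_compl W f).symm
  rw [h1, h2, Finset.prod_mul_distrib]
  ring

end ENtAux

open ENtAux

theorem pENt (hCb : S_ECb) (hIt : S_EIt) (hCi : S_Ci2) : S_ENt := by
  intro j ε hε
  classical
  set ε' : ℝ := min ε 1 with hε'
  have hε'0 : 0 < ε' := lt_min hε one_pos
  have hε'1 : ε' ≤ 1 := min_le_right _ _
  have hε'2 : ε' ≤ ε := min_le_left _ _
  set δ : ℝ := ε' / 2 ^ (2 ^ j) with hδ
  have h2pos : (1 : ℝ) ≤ 2 ^ (2 ^ j) := one_le_pow₀ (by norm_num)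
  have hδ0 : 0 < δ := by positivity
  have hδ1 : δ ≤ 1 := by
    rw [hδ, div_le_one (by positivity)]
    linarith
  obtain ⟨X0, hX0⟩ := hIt j (j + 4) δ hδ0 hδ1
  refine ⟨X0, fun X hX lam hlam => ?_⟩
  by_contra hcon
  push Not at hcon
  -- some circuit has many tuples
  have hC : ∃ C : Finset (Finset (Fin j)), δ * (X : ℝ) ^ j ≤
      (Set.ncard {a : Fin j → ℕ | (∀ i, 1 ≤ a i ∧ a i ≤ X) ∧ Crc C (vn lam a)} : ℝ) := by
    by_contra hno
    push Not at hno
    have hsub : (Fintype.piFinset (fun _ : Fin j => Finset.Icc 1 X)).filter (fun a => BadN lam a) ⊆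
        (Finset.univ : Finset (Finset (Finset (Fin j)))).biUnion (fun C =>
          (Fintype.piFinset (fun _ : Fin j => Finset.Icc 1 X)).filter (fun a => Crc C (vn lam a))) := by
      intro a ha
      rw [Finset.mem_filter] at ha
      obtain ⟨C, hC⟩ := hCi j (vn lam a) ha.2
      rw [Finset.mem_biUnion]
      exact ⟨C, Finset.mem_univ _, Finset.mem_filter.mpr ⟨ha.1, hC⟩⟩
    have h1 := (Finset.card_le_card hsub).trans Finset.card_biUnion_le
    have h2 : (Set.ncard {a : Fin j → ℕ | (∀ i, 1 ≤ a i ∧ a i ≤ X) ∧ BadN lam a} : ℝ) ≤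
        ∑ C : Finset (Finset (Fin j)),
          (Set.ncard {a : Fin j → ℕ | (∀ i, 1 ≤ a i ∧ a i ≤ X) ∧ Crc C (vn lam a)} : ℝ) := by
      rw [ncard_bx j X (fun a => BadN lam a)]
      have h3 : ∑ C : Finset (Finset (Fin j)),
          (Set.ncard {a : Fin j → ℕ | (∀ i, 1 ≤ a i ∧ a i ≤ X) ∧ Crc C (vn lam a)} : ℝ) =
          ((∑ C : Finset (Finset (Fin j)), ((Fintype.piFinset (fun _ : Fin j => Finset.Icc 1 X)).filter
            (fun a => Crc C (vn lam a))).card : ℕ) : ℝ) := by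
        push_cast
        refine Finset.sum_congr rfl fun C _ => ?_
        rw [ncard_bx j X (fun a => Crc C (vn lam a))]
      rw [h3]
      exact_mod_cast h1
    have h4 : ∑ C : Finset (Finset (Fin j)),
          (Set.ncard {a : Fin j → ℕ | (∀ i, 1 ≤ a i ∧ a i ≤ X) ∧ Crc C (vn lam a)} : ℝ) ≤
        ∑ C : Finset (Finset (Fin j)), δ * (X : ℝ) ^ j :=
      Finset.sum_le_sum fun C _ => (hno C).le
    rw [Finset.sum_const, nsmul_eq_mul, Finset.card_univ, Fintype.card_finset, Fintype.card_finset,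
      Fintype.card_fin] at h4
    have h5 : ((2 ^ 2 ^ j : ℕ) : ℝ) * (δ * (X : ℝ) ^ j) = ε' * (X : ℝ) ^ j := by
      rw [hδ]
      push_cast
      field_simp
    rw [h5] at h4
    have h6 : ε' * (X : ℝ) ^ j ≤ ε * (X : ℝ) ^ j := mul_le_mul_of_nonneg_right hε'2 (by positivity)
    linarith
  obtain ⟨C, hC⟩ := hC
  obtain ⟨c, q, hc, hq, hinj, hB⟩ := hX0 X hX (fun a => Crc C (vn lam a)) hC
  obtain ⟨W, hW⟩ := hCb j (fun i => c i * ∏ l, q false i l) (fun i l => q false i l * q true i l) lam C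
    (fun W i => c i * ∏ l, q (decide (l ∈ W i)) i l)
    (fun i => Nat.mul_pos (hc i) (Finset.prod_pos fun l _ => (hq false i l).pos))
    (ind_of j (j + 4) q hq hinj) hlam (by
      intro W i
      refine ⟨∏ l ∈ W i, q false i l, 1, Finset.prod_pos fun l _ => (hq false i l).pos, Nat.one_pos, ?_⟩
      have h1 : ∏ l, q (decide (l ∈ W i)) i l = ∏ l, (if l ∈ W i then q true i l else q false i l) := by
        refine Finset.prod_congr rfl fun l _ => ?_
        by_cases h : l ∈ W i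
        · rw [decide_eq_true h, if_pos h]
        · rw [decide_eq_false h, if_neg h]
      have h2 := prod_id (j + 4) (q false i) (q true i) (W i)
      rw [h1, mul_assoc, h2]
      ring)
  exact hW (hB W)

end Pool.Agent.SMQ
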